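import Pool.Agent.D0H69.UC.Few
import Pool.Agent.D0H69.L0F.End

/-!
# The majority of the cubic twists: few rational points on all covers
-/

set_option autoImplicit false
set_option linter.unusedVariables false
set_option linter.unusedSectionVars false

open scoped Classical

namespace Pool.Agent.D0H69.UC

open NumberField Filter Topology
open Pool.Agent.Y692.QS (Ei nr)
open Pool.Agent.D0H10.KH (FamH ExtH ExcH)
open Pool.Agent.Y696.CTK (Tri ED)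

section
variable {K : Type} [Field K] [NumberField K] [IsCyclotomicExtension {3} ℚ K]

theorem fin_norm (X : ℕ) : {D : 𝓞 K | Algebra.norm ℤ D ≤ X}.Finite := by
  obtain ⟨⟨j, hj⟩, -⟩ := Pool.Agent.Y455.CTK.jex K
  have h5 := (Pool.Agent.N883.FF.fin_nr X).image j
  refine h5.subset ?_
  intro D hD
  obtain ⟨z, rfl⟩ := j.surjective D
  rw [Set.mem_ofPred_eq, hj] at hD
  exact ⟨z, hD, rfl⟩

theorem dvd_norm {x y : 𝓞 K} (h : x ∣ y) : Algebra.norm ℤ x ∣ Algebra.norm ℤ y := map_dvd _ h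

theorem cube_dvd {p a n : ℕ} (hp : p.Prime) (h3 : p ≠ 3) (ha : a < 3) (h : n ^ 3 ∣ p ^ 2 * 3 ^ a) : n = 1 := by
  by_contra hn
  obtain ⟨q, hq, hqn⟩ := Nat.exists_prime_and_dvd hn
  have h1 : q ^ 3 ∣ p ^ 2 * 3 ^ a := (pow_dvd_pow_of_dvd hqn 3).trans h
  by_cases hq3 : q = 3
  · subst hq3
    have h2 : Nat.Coprime (3 ^ 3) (p ^ 2) := Nat.Coprime.pow _ _ ((Nat.coprime_primes hq hp).2 (Ne.symm h3))
    have h4 := (Nat.Coprime.dvd_mul_left h2).1 h1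
    have h5 := (Nat.pow_dvd_pow_iff_le_right (by norm_num : 1 < 3)).1 h4
    omega
  · have h2 : Nat.Coprime (q ^ 3) (3 ^ a) := Nat.Coprime.pow _ _ ((Nat.coprime_primes hq Nat.prime_three).2 hq3)
    have h4 := (Nat.Coprime.dvd_mul_right h2).1 h1
    have h5 : q = p := (Nat.prime_dvd_prime_iff_eq hq hp).1
      (hq.dvd_of_dvd_pow ((dvd_pow_self q (by norm_num)).trans h4))
    subst h5
    have h6 := (Nat.pow_dvd_pow_iff_le_right hq.one_lt).1 h4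
    omega

/-- the elements `p √-3 ^ a` of the classes -/
theorem mem_class (p a : ℕ) (hp : p.Prime) (h3 : 3 < p) (h9 : p % 9 = 1) (ha : a < 3) {l : 𝓞 K}
    (hl : l ^ 2 = -3) (hln : Algebra.norm ℤ l = 3) (h33 : Algebra.norm ℤ (3 : 𝓞 K) = 9) (hpn : Algebra.norm ℤ (p : 𝓞 K) = (p : ℤ) ^ 2)
    (hun : ∀ x : 𝓞 K, (Algebra.norm ℤ x).natAbs = 1 → IsUnit x) :
    FamH ((p : 𝓞 K) * l ^ a) ∧ ExtH a ((p : 𝓞 K) * l ^ a) ∧ (a = 0 → ExcH ((p : 𝓞 K) * l ^ a)) := by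
  have hDn : Algebra.norm ℤ ((p : 𝓞 K) * l ^ a) = (p : ℤ) ^ 2 * 3 ^ a := by
    rw [map_mul, map_pow, hln, hpn]
  have hl0 : l ≠ 0 := by
    rintro rfl
    rw [zero_pow two_ne_zero] at hl
    norm_num at hl
  refine ⟨⟨fun h => ?_, fun x hx => ?_⟩, ⟨l, hl, dvd_mul_left _ _, fun h => ?_⟩, fun h0 => ⟨l, hl, ?_⟩⟩
  · have h1 := dvd_norm ((dvd_mul_right _ _).trans h)
    rw [hpn, h33] at h1
    have h2 : p ^ 2 ∣ 3 ^ 2 := by exact_mod_cast h1
    have h4 := (Nat.prime_dvd_prime_iff_eq hp Nat.prime_three).1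
      (hp.dvd_of_dvd_pow ((dvd_pow_self p (by norm_num)).trans h2))
    omega
  · apply hun
    have h1 := dvd_norm hx
    rw [hDn, map_pow] at h1
    have h2 := Int.natAbs_dvd_natAbs.2 h1
    rw [Int.natAbs_pow, Int.natAbs_mul, Int.natAbs_pow, Int.natAbs_pow, Int.natAbs_natCast] at h2
    exact cube_dvd hp (by omega) ha h2
  · rw [pow_succ, mul_comm (l ^ a) l] at h
    have h1 := (mul_dvd_mul_iff_right (pow_ne_zero a hl0)).1 h
    have h2 := dvd_norm h1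
    rw [hln, hpn] at h2
    have h4 : 3 ∣ p ^ 2 := by exact_mod_cast h2
    have h5 := (Nat.prime_dvd_prime_iff_eq Nat.prime_three hp).1 (Nat.prime_three.dvd_of_dvd_pow h4)
    omega
  · subst h0
    rw [pow_zero, mul_one]
    have h1 : (9 : ℤ) ∣ (p : ℤ) ^ 2 - 1 := by
      have h2 : (9 : ℤ) ∣ (p : ℤ) - 1 := by omega
      have : (p : ℤ) ^ 2 - 1 = ((p : ℤ) - 1) * (p + 1) := by ring
      rw [this]
      exact h2.mul_right _
    obtain ⟨m, hm⟩ := h1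
    refine ⟨l * m, ?_⟩
    have h4 : (p : 𝓞 K) ^ 2 - 1 = 9 * m := by exact_mod_cast congrArg (Int.cast (R := 𝓞 K)) hm
    rw [h4]
    linear_combination (3 - l ^ 2) * (m : 𝓞 K) * hl

theorem inf_class (a : ℕ) (ha : a < 3) : {D : 𝓞 K | FamH D ∧ ExtH a D ∧ (a = 0 → ExcH D)}.Infinite := by
  obtain ⟨⟨j, hj⟩, -⟩ := Pool.Agent.Y455.CTK.jex K
  have hl : (j ⟨1, 2⟩ : 𝓞 K) ^ 2 = -3 := by
    rw [← map_pow, show (⟨1, 2⟩ : Ei) ^ 2 = -3 by decide, map_neg, map_ofNat]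
  have hln : Algebra.norm ℤ (j ⟨1, 2⟩ : 𝓞 K) = 3 := by rw [hj]; rfl
  have hpn : ∀ p : ℕ, Algebra.norm ℤ (p : 𝓞 K) = (p : ℤ) ^ 2 := by
    intro p
    rw [← map_natCast j, hj, nr]
    simp
  have hun : ∀ x : 𝓞 K, (Algebra.norm ℤ x).natAbs = 1 → IsUnit x := by
    intro x hx
    obtain ⟨z, rfl⟩ := j.surjective x
    rw [hj] at hx
    have h1 : nr z = 1 := by
      have := Pool.Agent.Y692.QS.nr_nonneg z
      omega
    exact ((Pool.Agent.Y692.QS.isUnit_iff).2 h1).map j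
  have hinf : {p : ℕ | p.Prime ∧ p % 9 = 1}.Infinite := by
    rw [Set.infinite_iff_exists_gt]
    intro n
    obtain ⟨p, hp1, hp2, hp3⟩ := Nat.forall_exists_prime_gt_and_eq_mod (q := 9) (a := 1) isUnit_one n
    refine ⟨p, ⟨hp2, ?_⟩, hp1⟩
    have h1 : ((p : ℕ) : ZMod 9) = ((1 : ℕ) : ZMod 9) := by rw [hp3]; rfl
    have h2 := (ZMod.natCast_eq_natCast_iff' _ _ _).1 h1
    simpa using h2
  refine (hinf.image (f := fun p : ℕ => (p : 𝓞 K) * (j ⟨1, 2⟩ : 𝓞 K) ^ a) ?_).mono ?_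
  · intro p _ q _ h
    have h2 : (j ⟨1, 2⟩ : 𝓞 K) ^ a ≠ 0 := by
      apply pow_ne_zero
      intro h0
      rw [h0] at hln
      simp at hln
    have h3 := mul_right_cancel₀ h2 h
    exact_mod_cast h3
  · rintro _ ⟨p, ⟨hp, hp9⟩, rfl⟩
    refine mem_class p a hp ?_ hp9 ha hl hln (by simpa using hpn 3) (hpn p) hun
    have := hp.two_le
    by_contra hc
    interval_cases p <;> omega

theorem count_inf {S : Set (𝓞 K)} (hS : S.Infinite) (B : ℕ) :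
    ∀ᶠ X : ℕ in atTop, B ≤ {D : 𝓞 K | Algebra.norm ℤ D ≤ X ∧ D ∈ S}.ncard := by
  obtain ⟨T, hT, hTc⟩ := hS.exists_subset_card_eq B
  filter_upwards [eventually_ge_atTop (T.sup fun D => (Algebra.norm ℤ D).natAbs)] with X hX
  rw [← hTc, ← Set.ncard_coe_finset]
  apply Set.ncard_le_ncard
  · intro D hD
    refine ⟨?_, hT hD⟩
    have h1 : (Algebra.norm ℤ D).natAbs ≤ X := (Finset.le_sup (f := fun D => (Algebra.norm ℤ D).natAbs) hD).trans hX
    omega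
  · exact (fin_norm X).subset fun D hD => hD.1

theorem lower {P Q R : 𝓞 K → Prop} (hinf : {D : 𝓞 K | P D}.Infinite) (E : Set (𝓞 K)) (hE : E.Finite)
    (h : ∀ D, P D → Q D → D ∉ E → R D) {c c' : ℝ} (hc : c' < c)
    (hlim : Tendsto (fun X : ℕ => ({D : 𝓞 K | Algebra.norm ℤ D ≤ X ∧ P D ∧ Q D}.ncard : ℝ) /
      ({D : 𝓞 K | Algebra.norm ℤ D ≤ X ∧ P D}.ncard : ℝ)) atTop (nhds c)) :
    ∀ᶠ X : ℕ in atTop, c' * ({D : 𝓞 K | Algebra.norm ℤ D ≤ X ∧ P D}.ncard : ℝ) ≤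
      ({D : 𝓞 K | Algebra.norm ℤ D ≤ X ∧ P D ∧ R D}.ncard : ℝ) := by
  obtain ⟨c2, hc1, hc2⟩ := exists_between hc
  obtain ⟨B, hB⟩ := exists_nat_gt ((E.ncard : ℝ) / (c2 - c'))
  filter_upwards [(tendsto_order.1 hlim).1 _ hc2, count_inf hinf (max B 1)] with X hX hX2
  have hX3 : 1 ≤ {D : 𝓞 K | Algebra.norm ℤ D ≤ X ∧ P D}.ncard := le_trans (le_max_right _ _) hX2
  have hX4 : (B : ℝ) ≤ ({D : 𝓞 K | Algebra.norm ℤ D ≤ X ∧ P D}.ncard : ℝ) := by
    exact_mod_cast le_trans (le_max_left _ _) hX2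
  have hpos : (0 : ℝ) < ({D : 𝓞 K | Algebra.norm ℤ D ≤ X ∧ P D}.ncard : ℝ) := by
    exact_mod_cast lt_of_lt_of_le one_pos hX3
  rw [lt_div_iff₀ hpos] at hX
  have h1 : {D : 𝓞 K | Algebra.norm ℤ D ≤ X ∧ P D ∧ Q D}.ncard ≤
      {D : 𝓞 K | Algebra.norm ℤ D ≤ X ∧ P D ∧ R D}.ncard + E.ncard := by
    refine le_trans (Set.ncard_le_ncard ?_ ?_) (Set.ncard_union_le _ _)
    · rintro D ⟨a1, a2, a3⟩
      by_cases hD : D ∈ E
      · exact Or.inr hD
      · exact Or.inl ⟨a1, a2, h D a2 a3 hD⟩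
    · exact ((fin_norm X).subset fun D hD => hD.1).union hE
  have h2 : ({D : 𝓞 K | Algebra.norm ℤ D ≤ X ∧ P D ∧ Q D}.ncard : ℝ) ≤
      ({D : 𝓞 K | Algebra.norm ℤ D ≤ X ∧ P D ∧ R D}.ncard : ℝ) + (E.ncard : ℝ) := by exact_mod_cast h1
  have h3 : (0 : ℝ) < c2 - c' := sub_pos.2 hc1
  rw [div_lt_iff₀ h3] at hB
  nlinarith

theorem fin_dvd_two : {D : 𝓞 K | D ∣ 2}.Finite := by
  obtain ⟨⟨j, hj⟩, -⟩ := Pool.Agent.Y455.CTK.jex K
  refine (fin_norm 4).subset fun D hD => ?_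
  have h2 : Algebra.norm ℤ (2 : 𝓞 K) = 4 := by
    rw [← map_ofNat j 2, hj]
    rfl
  have h1 := dvd_norm hD
  rw [h2] at h1
  exact_mod_cast Int.le_of_dvd (by norm_num) h1

/-- the coordinates of an element of `K` are unique -/
theorem coord {ω : K} (hω : ω ^ 2 + ω + 1 = 0) {a b c d : ℚ} (h : (a : K) + b * ω = c + d * ω) :
    a = c ∧ b = d := by
  by_cases hbd : b = d
  · subst hbd
    exact ⟨by exact_mod_cast add_right_cancel h, rfl⟩
  · exfalso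
    have h0 : ((b - d : ℚ) : K) ≠ 0 := by exact_mod_cast sub_ne_zero.2 hbd
    have h1 : ω = ((c - a) / (b - d) : ℚ) := by
      have h3 : (b : K) - d ≠ 0 := by
        have := h0
        push_cast at this
        exact this
      push_cast
      field_simp
      linear_combination h
    set q : ℚ := (c - a) / (b - d)
    rw [h1] at hω
    have h9 : (q ^ 2 + q + 1 : ℚ) = 0 := by
      have : ((q ^ 2 + q + 1 : ℚ) : K) = 0 := by push_cast; exact hω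
      exact_mod_cast this
    nlinarith [sq_nonneg (q + 1 / 2)]

/-- the points with rational abscissa -/
theorem example_pts {ω : K} (hω : ω ^ 2 + ω + 1 = 0) (r s : ℤ)
    (h : ∀ x y : K, y ^ 2 + (r + s * ω) * y = x ^ 3 → x = 0) :
    {p : ℚ × ℚ × ℚ | p.1 ^ 3 = p.2.1 ^ 2 - p.2.2 ^ 2 + r * p.2.1 - s * p.2.2 ∧
        2 * p.2.1 * p.2.2 - p.2.2 ^ 2 + s * p.2.1 + (r - s) * p.2.2 = 0} =
      {((0 : ℚ), (0 : ℚ), (0 : ℚ)), ((0 : ℚ), (-r : ℚ), (-s : ℚ))} := by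
  ext ⟨x, y, z⟩
  simp only [Set.mem_ofPred_eq, Set.mem_insert_iff, Set.mem_singleton_iff, Prod.mk.injEq]
  constructor
  · rintro ⟨h1, h2⟩
    have h1' : (x : K) ^ 3 = y ^ 2 - z ^ 2 + r * y - s * z := by exact_mod_cast congrArg (Rat.cast (K := K)) h1
    have h2' : 2 * (y : K) * z - z ^ 2 + s * y + (r - s) * z = 0 := by
      exact_mod_cast congrArg (Rat.cast (K := K)) h2
    have e : ((y : K) + z * ω) ^ 2 + (r + s * ω) * ((y : K) + z * ω) = (x : K) ^ 3 := by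
      rw [h1']
      linear_combination ω * h2' + ((z : K) ^ 2 + s * z) * hω
    have hx := h _ _ e
    rw [hx, zero_pow three_ne_zero] at e
    have hx0 : x = 0 := by exact_mod_cast hx
    have e2 : ((y : K) + z * ω) * (((y : K) + z * ω) + (r + s * ω)) = 0 := by linear_combination e
    rcases mul_eq_zero.1 e2 with e3 | e3
    · left
      have := coord hω (a := y) (b := z) (c := 0) (d := 0) (by rw [e3]; push_cast; ring)
      exact ⟨hx0, this.1, this.2⟩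
    · right
      have := coord hω (a := y) (b := z) (c := -r) (d := -s) (by push_cast; linear_combination e3)
      exact ⟨hx0, this.1, this.2⟩
  · rintro (⟨rfl, rfl, rfl⟩ | ⟨rfl, rfl, rfl⟩)
    · norm_num
    · constructor <;> ring

end

end Pool.Agent.D0H69.UC
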