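import Pool.Agent.D0H69.UC.Pf
import Pool.Agent.D0H69.UC.Fin
import Pool.Agent.D0H69.JT.Multi
import Pool.Agent.D0H69.JT.Exc
import Pool.Agent.D0H76.BKR.Ext

/-!
# The majority of the cubic twists over Kummer extensions: few rational points on all covers
-/

set_option autoImplicit false
set_option linter.unusedVariables false
set_option linter.unusedSectionVars false

open scoped Classical

namespace Pool.Agent.D0H69.UC

open NumberField Filter Topology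
open Pool.Agent.Y692.QS (Ei nr)
open Pool.Agent.D0H10.KH (FamH ExtH ExcH famH_iff)
open Pool.Agent.Y696.CTK (Tri ED)
open Pool.Agent.Y703.XK (c9)
open Pool.Agent.D0H69.JTA (JK t_ALL jK_ne jK_inj jK_mul jK_pow frac)
open Pool.Agent.D0H69.JTL (Bas uu uu_ne bas_of famH_ne' Cls low_all jk_cong)
open Pool.Agent.R432.C (om_K gal3)

section count
variable {K F : Type} [Field K] [Field F] [Algebra K F] [CharZero K]

/-- curves over `k` with a map to `y² + D y = x³` over `K` -/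
theorem count_kD {k F₀ : Type} [Field k] [Field F₀] [Algebra k K] [Algebra k F₀] [Algebra F₀ F]
    [Algebra k F] [IsScalarTower k F₀ F] [IsScalarTower k K F] [FiniteDimensional k K]
    (hF : IntermediateField.adjoin F₀ (Set.range (algebraMap K F)) = ⊤)
    {D : K} (hD : D ≠ 0) (hpt : ∀ x y : K, y ^ 2 + D * y = x ^ 3 → x = 0)
    (hC : IsC K F) {x y : F} (hx : Transcendental K x) (h : y ^ 2 + algebraMap K F D * y = x ^ 3) :
    (Pts k F₀).Finite ∧ (Pts k F₀).ncard ≤ 3 * Module.finrank (IntermediateField.adjoin K {x, y}) F := by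
  obtain ⟨h1, h2⟩ := count_D hD hpt hC hx h
  obtain ⟨h3, h4⟩ := Pool.Agent.D0H76.BKR.pts_le (k := k) (F₀ := F₀) hF h1
  exact ⟨h3, h4.trans h2⟩

end count

section
variable {K : Type} [Field K] [NumberField K] [IsCyclotomicExtension {3} ℚ K]

/-- the points over `K` -/
theorem k_pts {x : K} (hx : x ≠ 0) (h1 : ∀ r : K, r ^ 3 ≠ x) (h2 : ∀ r : K, 2 * r ^ 3 ≠ x)
    (hf : Finite (ED x).toAffine.Point) : ∀ X Y : K, Y ^ 2 + x * Y = X ^ 3 → X = 0 := by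
  have hfin : {X : K | X ≠ 0 ∧ ∃ Y, Y ^ 2 + x * Y = X ^ 3}.Finite := by
    let f : (ED x).toAffine.Point → K := fun P =>
      match P with
      | .zero => 0
      | .some X _ _ => X
    refine (Set.finite_range f).subset ?_
    rintro X ⟨hX, Y, hXY⟩
    have hns : (ED x).toAffine.Nonsingular X Y := by
      rw [WeierstrassCurve.Affine.nonsingular_iff]
      refine ⟨?_, ?_⟩
      · rw [WeierstrassCurve.Affine.equation_iff]
        change Y ^ 2 + 0 * X * Y + x * Y = X ^ 3 + 0 * X ^ 2 + 0 * X + 0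
        linear_combination hXY
      · left
        change 0 * Y ≠ 3 * X ^ 2 + 2 * 0 * X + 0
        intro h0
        have h3 : (3 : K) * X ^ 2 = 0 := by linear_combination -h0
        exact hX (pow_eq_zero_iff two_ne_zero |>.1 ((mul_eq_zero.1 h3).resolve_left three_ne_zero))
    exact ⟨.some X Y hns, rfl⟩
  obtain ⟨v, hv⟩ := exists_two K
  exact no_otherD hv hx h1 h2 hfin

/-- an element of the family is no cube -/
theorem fam_cube {D : 𝓞 K} (hD : FamH D) (r : K) : r ^ 3 ≠ D := by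
  intro hr
  have h5 : IsIntegral ℤ (r ^ 3) := by rw [hr]; exact D.isIntegral_coe
  obtain ⟨r', rfl⟩ : ∃ r' : 𝓞 K, (r' : K) = r := ⟨⟨r, IsIntegral.of_pow three_pos h5⟩, rfl⟩
  have h6 : r' ^ 3 = D := RingOfIntegers.coe_injective (by rw [map_pow]; exact hr)
  have h7 := hD.2 r' (by rw [h6])
  apply hD.1
  rw [← h6]
  exact (h7.pow 3).dvd

/-- elements of the family in the same class -/
theorem same_class {D D₁ : 𝓞 K} (hD : FamH D) (hD₁ : FamH D₁) {c : K} (h : (D : K) = D₁ * c ^ 3) :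
    D = D₁ ∨ D = -D₁ := by
  obtain ⟨⟨j, hj⟩, -⟩ := Pool.Agent.Y455.CTK.jex K
  have hCFU := t_ALL.2.2.2.2.2.2.2.2.1
  obtain ⟨D, rfl⟩ := j.surjective D
  obtain ⟨D₁, rfl⟩ := j.surjective D₁
  have hc : c ≠ 0 := by
    rintro rfl
    rw [zero_pow three_ne_zero, mul_zero] at h
    exact famH_ne' hD h
  obtain ⟨m, n, hm, hn, hmn⟩ := frac j hc
  have h1 := hCFU.2.1 D D₁ n m ((famH_iff j D).1 hD) ((famH_iff j D₁).1 hD₁) hn hm (by
    apply jK_inj j
    rw [jK_mul, jK_mul, jK_pow, jK_pow, h, ← hmn]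
    ring)
  rcases h1 with h1 | h1
  · left
    rw [h1]
  · right
    rw [h1, map_neg]

/-- the exceptional elements -/
theorem two_fin {v : K} (hv : v ≠ 0) : {D : 𝓞 K | FamH D ∧ ∃ r : K, 2 * r ^ 3 = v * D}.Finite := by
  by_cases hne : ∃ D₁ : 𝓞 K, FamH D₁ ∧ ∃ r : K, 2 * r ^ 3 = v * D₁
  · obtain ⟨D₁, h1, r₁, hr₁⟩ := hne
    have hD₁ : (D₁ : K) ≠ 0 := famH_ne' h1
    have hr₁0 : r₁ ≠ 0 := by
      rintro rfl
      rw [zero_pow three_ne_zero, mul_zero] at hr₁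
      exact mul_ne_zero hv hD₁ hr₁.symm
    refine (Set.toFinite ({D₁, -D₁} : Set (𝓞 K))).subset ?_
    rintro D ⟨h2, r, hr⟩
    refine same_class h2 h1 (c := r / r₁) ?_
    have h4 : (D : K) * r₁ ^ 3 = D₁ * r ^ 3 := by
      apply mul_left_cancel₀ hv
      linear_combination r ^ 3 * hr₁ - r₁ ^ 3 * hr
    rw [div_pow, ← mul_div_assoc, eq_div_iff (pow_ne_zero 3 hr₁0)]
    exact h4
  · convert Set.finite_empty
    rw [Set.eq_empty_iff_forall_notMem]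
    rintro D ⟨h2, r, hr⟩
    exact hne ⟨D, h2, r, hr⟩

/-- the points over `F` -/
theorem fewF {F : Type} [Field F] [NumberField F] [Algebra K F] {I : Type} [Fintype I]
    {d : I → K} {x : I → F} (hd : ∀ i, d i ≠ 0) (hx : ∀ i, x i ^ 3 = algebraMap K F (d i))
    (hgen : ∀ S : Subfield F, (∀ k : K, algebraMap K F k ∈ S) → (∀ i, x i ∈ S) → S = ⊤)
    {D : K} (hD : D ≠ 0)
    (h : ∀ t : I → ZMod 3, Finite (ED (D * ∏ i, d i ^ (t i).val)).toAffine.Point ∧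
      ∀ r : K, r ^ 3 ≠ D * ∏ i, d i ^ (t i).val ∧ 2 * r ^ 3 ≠ D * ∏ i, d i ^ (t i).val) :
    ∀ X Y : F, Y ^ 2 + algebraMap K F D * Y = X ^ 3 → X = 0 := by
  obtain ⟨⟨j, hj⟩, -⟩ := Pool.Agent.Y455.CTK.jex K
  have hω := om_K j
  obtain ⟨hfd, hgal⟩ := gal3 (F := F) hω d x hx hgen
  refine ptsF hω d x hd hx hgen hD fun t => ?_
  refine k_pts (mul_ne_zero hD (uu_ne hd t)) (fun r => ((h t).2 r).1) (fun r => ((h t).2 r).2) (h t).1

/-- the points over `F` for the elements of the family -/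
theorem fewJK {F : Type} [Field F] [NumberField F] [Algebra K F] {I : Type} [Fintype I]
    {d : I → K} {x : I → F} (B : Bas d x) {u : K} (hu : u ≠ 0) {D : 𝓞 K} (hD : FamH D)
    (h : JK (fun t => u * uu d t) D) (h2 : ∀ (t : I → ZMod 3) (r : K), 2 * r ^ 3 ≠ u * uu d t * D) :
    ∀ X Y : F, Y ^ 2 + algebraMap K F (u * D) * Y = X ^ 3 → X = 0 := by
  refine fewF B.ne B.cube B.gen (mul_ne_zero hu (famH_ne' hD)) fun t => ?_
  have h3 := Pool.Agent.D0H69.JTL.jk_tr h t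
  have e : u * uu d t * (D : K) = u * D * ∏ i, d i ^ (t i).val := by
    unfold uu
    ring
  rw [← e]
  refine ⟨h3.1, fun r => ⟨?_, h2 t r⟩⟩
  intro hr
  obtain ⟨D', hD', ⟨c, hc, heq⟩, -⟩ := h t
  apply fam_cube hD' (r * c)
  rw [heq, mul_pow, hr]

theorem lower' {P Q R : 𝓞 K → Prop} (hinf : {D : 𝓞 K | P D}.Infinite) (E : Set (𝓞 K)) (hE : E.Finite)
    (h : ∀ D, P D → Q D → D ∉ E → R D) {c2 c' : ℝ} (hc1 : c' < c2)
    (hev : ∀ᶠ X : ℕ in atTop, c2 < ({D : 𝓞 K | Algebra.norm ℤ D ≤ X ∧ P D ∧ Q D}.ncard : ℝ) /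
      ({D : 𝓞 K | Algebra.norm ℤ D ≤ X ∧ P D}.ncard : ℝ)) :
    ∀ᶠ X : ℕ in atTop, c' * ({D : 𝓞 K | Algebra.norm ℤ D ≤ X ∧ P D}.ncard : ℝ) ≤
      ({D : 𝓞 K | Algebra.norm ℤ D ≤ X ∧ P D ∧ R D}.ncard : ℝ) := by
  obtain ⟨B, hB⟩ := exists_nat_gt ((E.ncard : ℝ) / (c2 - c'))
  filter_upwards [hev, count_inf hinf (max B 1)] with X hX hX2
  have hX3 : 1 ≤ {D : 𝓞 K | Algebra.norm ℤ D ≤ X ∧ P D}.ncard := le_trans (le_max_right _ _) hX2
  have hX4 : (B : ℝ) ≤ ({D : 𝓞 K | Algebra.norm ℤ D ≤ X ∧ P D}.ncard : ℝ) := by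
    exact_mod_cast le_trans (le_max_left _ _) hX2
  have hpos : (0 : ℝ) < ({D : 𝓞 K | Algebra.norm ℤ D ≤ X ∧ P D}.ncard : ℝ) := by
    exact_mod_cast lt_of_lt_of_le one_pos hX3
  rw [lt_div_iff₀ hpos] at hX
  have h1 : {D : 𝓞 K | Algebra.norm ℤ D ≤ X ∧ P D ∧ Q D}.ncard ≤
      {D : 𝓞 K | Algebra.norm ℤ D ≤ X ∧ P D ∧ R D}.ncard + E.ncard := by
    refine le_trans (Set.ncard_le_ncard ?_ ?_) (Set.ncard_union_le _ _)
    · rintro D ⟨a1, a2, a3⟩
      by_cases hD : D ∈ E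
      · exact Or.inr hD
      · exact Or.inl ⟨a1, a2, h D a2 a3 hD⟩
    · exact ((fin_norm X).subset fun D hD => hD.1).union hE
  have h2 : ({D : 𝓞 K | Algebra.norm ℤ D ≤ X ∧ P D ∧ Q D}.ncard : ℝ) ≤
      ({D : 𝓞 K | Algebra.norm ℤ D ≤ X ∧ P D ∧ R D}.ncard : ℝ) + (E.ncard : ℝ) := by exact_mod_cast h1
  have h3 : (0 : ℝ) < c2 - c' := sub_pos.2 hc1
  rw [div_lt_iff₀ h3] at hB
  nlinarith

theorem inf_cls {P : 𝓞 K → Prop} (hP : Cls P) : {D : 𝓞 K | FamH D ∧ P D}.Infinite := by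
  rcases hP with rfl | ⟨a, ha, rfl⟩
  · exact (inf_class (K := K) 0 (by norm_num)).mono fun D hD => ⟨hD.1, trivial⟩
  · exact (inf_class (K := K) a ha).mono fun D hD => ⟨hD.1, hD.2.1⟩

/-- **Several fields and twists.** -/
theorem low_few {ι : Type} [Fintype ι] {F : ι → Type}
    [∀ i, Field (F i)] [∀ i, NumberField (F i)] [∀ i, Algebra K (F i)]
    (hF : ∀ i, ∃ S : Set (F i), (∀ x ∈ S, ∃ w : K, x ^ 3 = algebraMap K (F i) w) ∧
      IntermediateField.adjoin K S = ⊤) {u : ι → K} (hu : ∀ i, u i ≠ 0)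
    {P : 𝓞 K → Prop} (hP : Cls P) {c' : ℝ} (hc' : c' < c9 ^ ∑ i, Module.finrank K (F i)) :
    ∀ᶠ X : ℕ in atTop, c' * ({D : 𝓞 K | Algebra.norm ℤ D ≤ X ∧ FamH D ∧ P D}.ncard : ℝ) ≤
      ({D : 𝓞 K | Algebra.norm ℤ D ≤ X ∧ (FamH D ∧ P D) ∧
        ∀ i, ∀ Z Y : F i, Y ^ 2 + algebraMap K (F i) (u i * D) * Y = Z ^ 3 → Z = 0}.ncard : ℝ) := by
  choose S hS hgen using hF
  choose r d y B using fun i => bas_of (K := K) (hS i) (hgen i)
  let v : (Σ i, Fin (r i) → ZMod 3) → K := fun p => u p.1 * uu (d p.1) p.2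
  have hv : ∀ p, v p ≠ 0 := fun p => mul_ne_zero (hu _) (uu_ne (B p.1).ne _)
  have hcard : Fintype.card (Σ i, Fin (r i) → ZMod 3) = ∑ i, Module.finrank K (F i) := by
    rw [Fintype.card_sigma]
    refine Finset.sum_congr rfl fun i _ => ?_
    rw [(B i).deg]
    simp [ZMod.card]
  obtain ⟨c2, hc1, hc2⟩ := exists_between hc'
  have h1 := low_all (K := K) (v := v) hv hP (x := c2) (by rw [hcard]; exact hc2)
  let E : Set (𝓞 K) := ⋃ p, {D : 𝓞 K | FamH D ∧ ∃ r : K, 2 * r ^ 3 = v p * D}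
  have hE : E.Finite := Set.finite_iUnion fun p => two_fin (hv p)
  refine lower' (P := fun D => FamH D ∧ P D) (Q := JK v) (inf_cls hP) E hE
    (R := fun D => ∀ i, ∀ Z Y : F i, Y ^ 2 + algebraMap K (F i) (u i * D) * Y = Z ^ 3 → Z = 0)
    (fun D hD hJ hDE i => ?_) hc1 ?_
  · refine fewJK (B i) (hu i) hD.1 (jk_cong (v := v) (fun t => ⟨⟨i, t⟩, 1, one_ne_zero, by
        show u i * uu (d i) t = u i * uu (d i) t * 1 ^ 3
        ring⟩) hJ) fun t r hr => hDE ?_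
    exact Set.mem_iUnion.2 ⟨⟨i, t⟩, hD.1, r, hr⟩
  · simp only [and_assoc]
    exact h1

end

end Pool.Agent.D0H69.UC
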