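import Pool.Agent.Helper386.D5V.Helper386_FF_RR
import Pool.Agent.H427R3.ZT.Riem

/-!
# Rational points of curves which cover an elliptic curve with finitely many rational points
-/

set_option autoImplicit false
set_option linter.unusedVariables false

open Finset IntermediateField

namespace Pool.Agent.D0H69.UC

open FF

/-- the rational points of the curve with the function field `F` over `k`: the valuation rings
with residue field `k` -/
def Pts (k F : Type) [Field k] [Field F] [Algebra k F] : Set (ValuationSubring F) :=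
  {R | (∀ c : k, algebraMap k F c ∈ R) ∧ R ≠ ⊤ ∧
    ∀ r ∈ R, ∃ c : k, R.valuation (r - algebraMap k F c) < 1}

section
variable {k F : Type} [Field k] [Field F] [Algebra k F]

theorem ord_pos_of_lt (P : Place k F) {z : F} (hz : z ≠ 0) (h : P.O.valuation z < 1) : 0 < P.ord z := by
  by_contra hc
  have h1 : P.Reg z⁻¹ := Or.inr (by rw [P.ord_inv]; omega)
  have h2 : z⁻¹ ∈ P.O := h1
  rw [← P.O.valuation_le_one_iff, map_inv₀] at h2
  have h3 : (P.O.valuation z) ≠ 0 := (Valuation.ne_zero_iff _).2 hz
  have h4 : 1 < (P.O.valuation z)⁻¹ := (one_lt_inv₀ (zero_lt_iff.2 h3)).2 h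
  exact absurd h2 (not_le.2 h4)

theorem ord_const_sub (P : Place k F) {c c' : k} (h : algebraMap k F c - algebraMap k F c' = 0 ∨
    0 < P.ord (algebraMap k F c - algebraMap k F c')) : c = c' := by
  rw [← map_sub] at h
  by_contra hc
  have h1 : c - c' ≠ 0 := sub_ne_zero.2 hc
  rcases h with h | h
  · exact h1 ((map_eq_zero _).1 h)
  · rw [P.ord_const h1] at h
    exact lt_irrefl _ h

/-- `z ≡ 0` at the place `P` -/
def Z0 (P : Place k F) (z : F) : Prop := z = 0 ∨ 0 < P.ord z

theorem Z0.reg {P : Place k F} {z : F} (h : Z0 P z) : P.Reg z := by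
  rcases h with h | h
  · exact Or.inl h
  · exact Or.inr h.le

theorem z0_iff {P : Place k F} {z : F} (h : P.Reg z) : Z0 P z ↔ P.red z = 0 := (P.red_eq_zero_iff h).symm

variable [CharZero k] [IsFF k F]

/-- places with large poles are few -/
theorem card_poles {f : F} (hf : Transcendental k f) (S : Finset (Place k F)) (e : ℕ)
    (hS : ∀ P ∈ S, P.ord f ≤ -e) (he : 1 ≤ e) : e * S.card ≤ Module.finrank k⟮f⟯ F := by
  obtain ⟨T, hT, hT2⟩ := poles (k := k) (f := f) hf
  have h1 : S ⊆ T := by
    intro P hP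
    rw [hT]
    have := hS P hP
    omega
  calc e * S.card = ∑ P ∈ S, e := by rw [sum_const, smul_eq_mul, mul_comm]
    _ ≤ ∑ P ∈ S, (-P.ord f).toNat * P.deg := by
        apply sum_le_sum
        intro P hP
        have h2 := hS P hP
        have h3 := P.deg_pos
        calc e = e * 1 := (mul_one e).symm
          _ ≤ (-P.ord f).toNat * P.deg := Nat.mul_le_mul (by omega) h3
    _ ≤ ∑ P ∈ T, (-P.ord f).toNat * P.deg := sum_le_sum_of_subset h1
    _ = _ := hT2

theorem adjoin_sub (x : F) (c : k) : k⟮(x - algebraMap k F c)⟯ = k⟮x⟯ := by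
  apply le_antisymm
  · rw [adjoin_simple_le_iff]
    exact sub_mem (mem_adjoin_simple_self k x) (IntermediateField.algebraMap_mem _ c)
  · rw [adjoin_simple_le_iff]
    have h1 : x - algebraMap k F c ∈ k⟮(x - algebraMap k F c)⟯ := mem_adjoin_simple_self k _
    have h2 := add_mem h1 (IntermediateField.algebraMap_mem k⟮(x - algebraMap k F c)⟯ c)
    rwa [sub_add_cancel] at h2

theorem transc_sub {x : F} (hx : Transcendental k x) (c : k) :
    Transcendental k (x - algebraMap k F c) := by
  intro h
  apply hx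
  have h1 := h.add (isAlgebraic_algebraMap (A := F) c)
  rwa [sub_add_cancel] at h1

/-- the zeros of `x - c` -/
theorem card_zeros {x : F} (hx : Transcendental k x) (c : k) (S : Finset (Place k F)) (e : ℕ)
    (hS : ∀ P ∈ S, (e : ℤ) ≤ P.ord (x - algebraMap k F c)) (he : 1 ≤ e) :
    e * S.card ≤ Module.finrank k⟮x⟯ F := by
  have h0 := transc_sub hx c
  have h1 : Transcendental k (x - algebraMap k F c)⁻¹ := by
    intro h
    apply h0
    have h2 := h.inv
    rwa [inv_inv] at h2
  have h2 := card_poles h1 S e (fun P hP => by rw [P.ord_inv]; have := hS P hP; omega) he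
  rwa [adjoin_inv, adjoin_sub] at h2

end

section
variable {k F : Type} [Field k] [Field F] [Algebra k F] [CharZero k] [IsFF k F]

/-- the poles of `x` have even order -/
theorem pole_even (P : Place k F) {a b : k} {x y : F} (hx : Transcendental k x)
    (h : y ^ 2 = x ^ 3 + algebraMap k F a * x + algebraMap k F b) (hp : P.ord x < 0) : P.ord x ≤ -2 := by
  have hx0 : x ≠ 0 := by
    rintro rfl
    rw [P.ord_zero] at hp
    exact lt_irrefl _ hp
  have e3 : P.ord (x ^ 3) = 3 * P.ord x := by
    rw [P.ord_pow]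
    push_cast
    ring
  -- `a x + b` has order at least `ord x`
  have h1 : algebraMap k F a * x + algebraMap k F b = 0 ∨
      P.ord x ≤ P.ord (algebraMap k F a * x + algebraMap k F b) := by
    by_cases h0 : algebraMap k F a * x + algebraMap k F b = 0
    · exact Or.inl h0
    right
    by_cases ha : a = 0
    · rw [ha, map_zero, zero_mul, zero_add] at h0 ⊢
      have hb : b ≠ 0 := fun hb => h0 (by rw [hb, map_zero])
      rw [P.ord_const hb]
      exact hp.le
    have ha' : algebraMap k F a ≠ 0 := (map_ne_zero _).2 ha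
    have e1 : P.ord (algebraMap k F a * x) = P.ord x := by
      rw [P.ord_mul ha' hx0, P.ord_const ha, zero_add]
    by_cases hb : b = 0
    · rw [hb, map_zero, add_zero, e1]
    have hb' : algebraMap k F b ≠ 0 := (map_ne_zero _).2 hb
    have := P.ord_add (mul_ne_zero ha' hx0) hb' h0
    rw [e1, P.ord_const hb] at this
    rw [min_eq_left hp.le] at this
    exact this
  have h2 : x ^ 3 + algebraMap k F a * x + algebraMap k F b ≠ 0 ∧
      P.ord (x ^ 3 + algebraMap k F a * x + algebraMap k F b) = 3 * P.ord x := by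
    rw [add_assoc]
    rcases h1 with h1 | h1
    · rw [h1, add_zero]
      exact ⟨pow_ne_zero 3 hx0, e3⟩
    · by_cases h0 : algebraMap k F a * x + algebraMap k F b = 0
      · rw [h0, add_zero]
        exact ⟨pow_ne_zero 3 hx0, e3⟩
      · have := P.ord_add_eq (pow_ne_zero 3 hx0) h0 (by rw [e3]; omega)
        rw [e3] at this
        exact this
  have h3 : P.ord (y ^ 2) = 3 * P.ord x := by rw [h]; exact h2.2
  rw [P.ord_pow] at h3
  push_cast at h3
  omega

/-- the zeros of `x - c` have even order, `c` a simple zero of the cubic polynomial -/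
theorem zero_even (P : Place k F) {a b : k} {x y : F} (hx : Transcendental k x)
    (h : y ^ 2 = x ^ 3 + algebraMap k F a * x + algebraMap k F b) {c : k}
    (hc : c ^ 3 + a * c + b = 0) (hc' : 3 * c ^ 2 + a ≠ 0)
    (hp : 0 < P.ord (x - algebraMap k F c)) : 2 ≤ P.ord (x - algebraMap k F c) := by
  set u := x - algebraMap k F c with hu
  have hu0 : u ≠ 0 := fun h0 => (transc_sub hx c) (by rw [← hu, h0]; exact isAlgebraic_zero)
  have e : y ^ 2 = u * (u * (u + algebraMap k F (3 * c)) + algebraMap k F (3 * c ^ 2 + a)) := by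
    have hcF : algebraMap k F c ^ 3 + algebraMap k F a * algebraMap k F c + algebraMap k F b = 0 := by
      rw [← map_pow, ← map_mul, ← map_add, ← map_add, hc, map_zero]
    rw [h, show x = u + algebraMap k F c by rw [hu]; ring]
    simp only [map_add, map_mul, map_pow, map_ofNat]
    linear_combination hcF
  have hcc : algebraMap k F (3 * c ^ 2 + a) ≠ 0 := (map_ne_zero _).2 hc'
  have h1 : u * (u + algebraMap k F (3 * c)) = 0 ∨ 0 < P.ord (u * (u + algebraMap k F (3 * c))) := by
    by_cases h0 : u * (u + algebraMap k F (3 * c)) = 0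
    · exact Or.inl h0
    right
    have h00 : u + algebraMap k F (3 * c) ≠ 0 := right_ne_zero_of_mul h0
    rw [P.ord_mul hu0 h00]
    have h2 : P.Reg (u + algebraMap k F (3 * c)) := P.reg_add (Or.inr hp.le) (P.reg_const _)
    have := (P.reg_iff h00).1 h2
    omega
  have h2 : u * (u + algebraMap k F (3 * c)) + algebraMap k F (3 * c ^ 2 + a) ≠ 0 ∧
      P.ord (u * (u + algebraMap k F (3 * c)) + algebraMap k F (3 * c ^ 2 + a)) = 0 := by
    rcases h1 with h1 | h1
    · rw [h1, zero_add]
      exact ⟨hcc, P.ord_const hc'⟩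
    · by_cases h0 : u * (u + algebraMap k F (3 * c)) = 0
      · rw [h0, zero_add]
        exact ⟨hcc, P.ord_const hc'⟩
      · have := P.ord_add_eq hcc h0 (by rw [P.ord_const hc']; exact h1)
        rw [P.ord_const hc', add_comm] at this
        exact this
  have h3 : P.ord (y ^ 2) = P.ord u := by
    rw [e, P.ord_mul hu0 h2.1, h2.2, add_zero]
  rw [P.ord_pow] at h3
  push_cast at h3
  omega

end

section
variable {k F : Type} [Field k] [Field F] [Algebra k F] [CharZero k] [IsFF k F]

/-- the places of degree one -/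
def PP (k F : Type) [Field k] [Field F] [Algebra k F] : Set (Place k F) := {P | P.O ∈ Pts k F}

theorem encard_Pts : (Pts k F).encard = (PP k F).encard := by
  have h : Pts k F = (fun P : Place k F => P.O) '' PP k F := by
    ext R
    constructor
    · intro hR
      obtain ⟨P, hP⟩ := Pool.Agent.H427R3.ZT.exists_place_O (k := k) R hR.1 hR.2.1
      exact ⟨P, by change P.O ∈ Pts k F; rw [hP]; exact hR, hP⟩
    · rintro ⟨P, hP, rfl⟩
      exact hP
  rw [h, Set.InjOn.encard_image]
  intro P _ Q _ hPQ
  apply Place.eq_of_le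
  intro f hf0 hf
  have h1 : f ∈ P.O := (P.reg_iff hf0).2 hf
  have h2 : P.O = Q.O := hPQ
  rw [h2] at h1
  exact (Q.reg_iff hf0).1 h1

omit [CharZero k] [IsFF k F] in
theorem exists_const {P : Place k F} (hP : P ∈ PP k F) {z : F} (hz : P.Reg z) :
    ∃ c : k, Z0 P (z - algebraMap k F c) := by
  obtain ⟨c, hc⟩ := hP.2.2 z hz
  refine ⟨c, ?_⟩
  by_cases h0 : z - algebraMap k F c = 0
  · exact Or.inl h0
  · exact Or.inr (ord_pos_of_lt P h0 hc)

omit [CharZero k] [IsFF k F] in
theorem red_const {P : Place k F} {z : F} (hz : P.Reg z) {c : k} (hc : Z0 P (z - algebraMap k F c)) :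
    P.red z = algebraMap k P.RF c := by
  have h1 := (z0_iff hc.reg).1 hc
  rw [P.red_sub hz (P.reg_const c), sub_eq_zero] at h1
  rw [h1, P.algebraMap_RF]

/-- the finite points below a place of degree one -/
theorem point_below {P : Place k F} (hP : P ∈ PP k F) {a b : k} {x y : F}
    (h : y ^ 2 = x ^ 3 + algebraMap k F a * x + algebraMap k F b) (hx : P.Reg x) :
    ∃ c d : k, d ^ 2 = c ^ 3 + a * c + b ∧ Z0 P (x - algebraMap k F c) := by
  have hx2 : P.Reg (x ^ 2) := by rw [sq]; exact P.reg_mul hx hx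
  have hx3 : P.Reg (x ^ 3) := by rw [pow_succ]; exact P.reg_mul hx2 hx
  have hax : P.Reg (algebraMap k F a * x) := P.reg_mul (P.reg_const a) hx
  have hs : P.Reg (x ^ 3 + algebraMap k F a * x) := P.reg_add hx3 hax
  have hy2 : P.Reg (y ^ 2) := by rw [h]; exact P.reg_add hs (P.reg_const b)
  have hy : P.Reg y := by
    by_cases h0 : y = 0
    · exact Or.inl h0
    · right
      have h1 := (P.reg_iff (pow_ne_zero 2 h0)).1 hy2
      rw [P.ord_pow] at h1
      push_cast at h1
      omega
  obtain ⟨c, hc⟩ := exists_const hP hx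
  obtain ⟨d, hd⟩ := exists_const hP hy
  refine ⟨c, d, ?_, hc⟩
  apply (algebraMap k P.RF).injective
  have e1 := red_const hx hc
  have e2 := red_const hy hd
  have e3 : P.red (y ^ 2) = P.red (x ^ 3 + algebraMap k F a * x + algebraMap k F b) := by rw [h]
  rw [P.red_pow hy, P.red_add hs (P.reg_const b), P.red_add hx3 hax, P.red_pow hx,
    P.red_mul (P.reg_const a) hx, e1, e2, ← P.algebraMap_RF, ← P.algebraMap_RF] at e3
  simp only [map_add, map_mul, map_pow]
  exact e3

open Classical in
/-- the count, for finite sets -/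
theorem count_fin {a b : k} {x y : F} (hx : Transcendental k x)
    (h : y ^ 2 = x ^ 3 + algebraMap k F a * x + algebraMap k F b) (T0 T1 : Finset k)
    (hT0 : ∀ c ∈ T0, c ^ 3 + a * c + b = 0 ∧ 3 * c ^ 2 + a ≠ 0)
    (hT : ∀ c d : k, d ^ 2 = c ^ 3 + a * c + b → c ∈ T0 ∨ c ∈ T1) (S : Finset (Place k F))
    (hS : ∀ P ∈ S, P ∈ PP k F) :
    2 * S.card ≤ (1 + T0.card + 2 * T1.card) * Module.finrank k⟮x⟯ F := by
  set n := Module.finrank k⟮x⟯ F with hn
  have hsub : S ⊆ (S.filter fun P => P.ord x < 0) ∪
      (T0.biUnion fun c => S.filter fun P => 0 < P.ord (x - algebraMap k F c)) ∪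
      (T1.biUnion fun c => S.filter fun P => 0 < P.ord (x - algebraMap k F c)) := by
    intro P hP
    simp only [mem_union, mem_filter, mem_biUnion]
    by_cases h0 : P.ord x < 0
    · exact Or.inl (Or.inl ⟨hP, h0⟩)
    · obtain ⟨c, d, h1, h2⟩ := point_below (hS P hP) h (Or.inr (not_lt.1 h0))
      have h3 : 0 < P.ord (x - algebraMap k F c) := by
        rcases h2 with h2 | h2
        · exact absurd (by rw [h2]; exact isAlgebraic_zero) (transc_sub hx c)
        · exact h2
      rcases hT c d h1 with h4 | h4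
      · exact Or.inl (Or.inr ⟨c, h4, hP, h3⟩)
      · exact Or.inr ⟨c, h4, hP, h3⟩
  have c1 : 2 * (S.filter fun P => P.ord x < 0).card ≤ n := by
    apply card_poles hx _ 2 _ (by norm_num)
    intro P hP
    have := pole_even P hx h (mem_filter.1 hP).2
    exact this
  have c2 : ∀ c ∈ T0, 2 * (S.filter fun P => 0 < P.ord (x - algebraMap k F c)).card ≤ n := by
    intro c hc
    apply card_zeros hx c _ 2 _ (by norm_num)
    intro P hP
    exact zero_even P hx h (hT0 c hc).1 (hT0 c hc).2 (mem_filter.1 hP).2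
  have c3 : ∀ c ∈ T1, (S.filter fun P => 0 < P.ord (x - algebraMap k F c)).card ≤ n := by
    intro c hc
    have := card_zeros hx c (S.filter fun P => 0 < P.ord (x - algebraMap k F c)) 1
      (fun P hP => by have := (mem_filter.1 hP).2; push_cast; omega) le_rfl
    rwa [one_mul] at this
  have d2 : 2 * (T0.biUnion fun c => S.filter fun P => 0 < P.ord (x - algebraMap k F c)).card ≤
      T0.card * n := by
    calc _ ≤ 2 * ∑ c ∈ T0, (S.filter fun P => 0 < P.ord (x - algebraMap k F c)).card :=
          Nat.mul_le_mul_left _ card_biUnion_le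
      _ = ∑ c ∈ T0, 2 * (S.filter fun P => 0 < P.ord (x - algebraMap k F c)).card := mul_sum _ _ _
      _ ≤ ∑ c ∈ T0, n := sum_le_sum c2
      _ = T0.card * n := by rw [sum_const, smul_eq_mul]
  have d3 : (T1.biUnion fun c => S.filter fun P => 0 < P.ord (x - algebraMap k F c)).card ≤
      T1.card * n := by
    calc _ ≤ ∑ c ∈ T1, (S.filter fun P => 0 < P.ord (x - algebraMap k F c)).card := card_biUnion_le
      _ ≤ ∑ c ∈ T1, n := sum_le_sum c3
      _ = T1.card * n := by rw [sum_const, smul_eq_mul]
  have e1 := (card_le_card hsub).trans ((card_union_le _ _).trans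
    (Nat.add_le_add_right (card_union_le _ _) _))
  nlinarith

/-- **The count.** -/
theorem count {a b : k} {x y : F} (hx : Transcendental k x)
    (h : y ^ 2 = x ^ 3 + algebraMap k F a * x + algebraMap k F b) (T0 T1 : Finset k)
    (hT0 : ∀ c ∈ T0, c ^ 3 + a * c + b = 0 ∧ 3 * c ^ 2 + a ≠ 0)
    (hT : ∀ c d : k, d ^ 2 = c ^ 3 + a * c + b → c ∈ T0 ∨ c ∈ T1) :
    (Pts k F).Finite ∧
      2 * (Pts k F).ncard ≤ (1 + T0.card + 2 * T1.card) * Module.finrank k⟮x⟯ F := by
  set N := (1 + T0.card + 2 * T1.card) * Module.finrank k⟮x⟯ F with hN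
  have h1 : ∀ S : Finset (Place k F), (S : Set (Place k F)) ⊆ PP k F → 2 * S.card ≤ N :=
    fun S hS => count_fin hx h T0 T1 hT0 hT S fun P hP => hS hP
  have hfin : (PP k F).Finite := by
    by_contra hc
    obtain ⟨S, hS, hS2⟩ := Set.Infinite.exists_subset_card_eq hc (N + 1)
    have := h1 S hS
    omega
  have hfin2 : (Pts k F).Finite := by
    rw [← Set.encard_lt_top_iff, encard_Pts, Set.encard_lt_top_iff]
    exact hfin
  refine ⟨hfin2, ?_⟩
  have h2 := h1 hfin.toFinset (by rw [Set.Finite.coe_toFinset])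
  rw [← Set.ncard_eq_toFinset_card _ hfin] at h2
  have h3 : (Pts k F).ncard = (PP k F).ncard := by
    unfold Set.ncard
    rw [encard_Pts]
  rw [h3]
  exact h2

end

end Pool.Agent.D0H69.UC
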