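import Pool.Agent.D0H69.UC.Cnt

/-!
# Rational points over `ℚ` and over a quadratic field
-/

set_option autoImplicit false
set_option linter.unusedVariables false

open Finset IntermediateField

namespace Pool.Agent.D0H69.UC

section
variable {F₀ F : Type} [Field F₀] [Field F] [Algebra F₀ F]

/-- A valuation ring of `F₀` extends to `F`. -/
theorem exists_ext (R : ValuationSubring F₀) : ∃ W : ValuationSubring F,
    (∀ z ∈ R, algebraMap F₀ F z ∈ W) ∧ (∀ z : F₀, R.valuation z < 1 → W.valuation (algebraMap F₀ F z) < 1) ∧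
      ∀ z : F₀, algebraMap F₀ F z ∈ W → z ∈ R := by
  obtain ⟨W, hW⟩ := LocalSubring.exists_le_valuationSubring (R.toLocalSubring.map (algebraMap F₀ F))
  obtain ⟨h1, h2⟩ := hW
  have hmem : ∀ z ∈ R, algebraMap F₀ F z ∈ W := fun z hz => h1 ⟨z, hz, rfl⟩
  have hlt : ∀ z : F₀, R.valuation z < 1 → W.valuation (algebraMap F₀ F z) < 1 := by
    intro z hz
    have hzR : z ∈ R := (R.valuation_le_one_iff z).1 hz.le
    rw [← not_le]
    intro hc
    have hzW := hmem z hzR
    have he : W.valuation (algebraMap F₀ F z) = 1 := le_antisymm ((W.valuation_le_one_iff _).2 hzW) hc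
    have hu : IsUnit (⟨algebraMap F₀ F z, hzW⟩ : W) := (W.valuation_eq_one_iff ⟨_, hzW⟩).2 he
    have hm : algebraMap F₀ F z ∈ (R.toLocalSubring.map (algebraMap F₀ F)).toSubring := ⟨z, hzR, rfl⟩
    have hu2 := h2.map_nonunit ⟨algebraMap F₀ F z, hm⟩ hu
    obtain ⟨⟨u, hu3⟩, hu4⟩ := hu2.exists_right_inv
    obtain ⟨z', hz', rfl⟩ := hu3
    have e1 : algebraMap F₀ F z * algebraMap F₀ F z' = 1 := congrArg Subtype.val hu4
    rw [← map_mul, ← map_one (algebraMap F₀ F)] at e1
    have e2 := (algebraMap F₀ F).injective e1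
    have e3 := congrArg R.valuation e2
    rw [map_mul, map_one] at e3
    have e4 : R.valuation z' ≤ 1 := (R.valuation_le_one_iff z').2 hz'
    have e5 : R.valuation z * R.valuation z' < 1 :=
      lt_of_le_of_lt (mul_le_mul_right e4 _) (by rw [mul_one]; exact hz)
    exact absurd e3 e5.ne
  refine ⟨W, hmem, hlt, fun z hz => ?_⟩
  by_contra hc
  have h0 : z ≠ 0 := by rintro rfl; exact hc R.zero_mem
  have h3 : 1 < R.valuation z := not_le.1 fun h => hc ((R.valuation_le_one_iff z).1 h)
  have h4 : R.valuation z⁻¹ < 1 := by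
    rw [map_inv₀]
    exact inv_lt_one_of_one_lt₀ h3
  have h5 := hlt _ h4
  rw [map_inv₀, map_inv₀] at h5
  have h6 := (W.valuation_le_one_iff _).2 hz
  have h7 : 0 < W.valuation (algebraMap F₀ F z) := zero_lt_iff.2 ((Valuation.ne_zero_iff _).2 ((map_ne_zero _).2 h0))
  rw [inv_lt_one₀ h7] at h5
  exact absurd h6 (not_le.2 h5)

variable {K : Type} [Field K] [CharZero K] [Algebra K F] [Algebra ℚ F₀]

omit [Algebra ℚ F₀] in
theorem mem_W {W : ValuationSubring F} {z : K} (hz : z ^ 2 + z + 1 = 0) (hQ : ∀ q : ℚ, (q : F) ∈ W) (a b : ℚ) :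
    algebraMap K F (a + b * z) ∈ W := by
  have h1 : algebraMap K F z ∈ W := by
    set t := algebraMap K F z with ht
    have h2 : t ^ 2 + t + 1 = 0 := by rw [ht, ← map_pow, ← map_add, ← map_one (algebraMap K F), ← map_add, hz, map_zero]
    rcases W.mem_or_inv_mem t with h3 | h3
    · exact h3
    · have h0 : t ≠ 0 := by rintro h0; rw [h0] at h2; norm_num at h2
      have e : t = -(1 + t⁻¹) := by
        field_simp
        linear_combination h2
      rw [e]
      exact W.neg_mem _ (W.add_mem _ _ W.one_mem h3)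
  rw [map_add, map_mul, map_ratCast, map_ratCast]
  exact W.add_mem _ _ (hQ a) (W.mul_mem _ _ (hQ b) h1)

/-- The residue field of the extension to a quadratic constant extension. -/
theorem pts_ext {z : K} (hz : z ^ 2 + z + 1 = 0) (hK : ∀ c : K, ∃ a b : ℚ, c = a + b * z)
    (hF : ∀ f : F, ∃ p q : F₀, f = algebraMap F₀ F p + algebraMap F₀ F q * algebraMap K F z)
    {R : ValuationSubring F₀} (hR : R ∈ Pts ℚ F₀) {W : ValuationSubring F}
    (h1 : ∀ z ∈ R, algebraMap F₀ F z ∈ W)
    (h2 : ∀ z : F₀, R.valuation z < 1 → W.valuation (algebraMap F₀ F z) < 1)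
    (h3 : ∀ z : F₀, algebraMap F₀ F z ∈ W → z ∈ R) : W ∈ Pts K F := by
  have : CharZero F := charZero_of_injective_algebraMap (algebraMap K F).injective
  have hQ : ∀ q : ℚ, (q : F) ∈ W := by
    intro q
    have h4 := h1 _ (hR.1 q)
    rwa [eq_ratCast, map_ratCast] at h4
  have hmem : ∀ c : K, algebraMap K F c ∈ W := by
    intro c
    obtain ⟨a, b, rfl⟩ := hK c
    exact mem_W hz hQ a b
  have hunit : ∀ c : K, c ≠ 0 → W.valuation (algebraMap K F c) = 1 := by
    intro c hc
    apply le_antisymm ((W.valuation_le_one_iff _).2 (hmem c))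
    have h4 := (W.valuation_le_one_iff _).2 (hmem c⁻¹)
    rw [map_inv₀, map_inv₀] at h4
    have h5 : 0 < W.valuation (algebraMap K F c) :=
      zero_lt_iff.2 ((Valuation.ne_zero_iff _).2 ((map_ne_zero _).2 hc))
    exact (inv_le_one₀ h5).1 h4
  refine ⟨hmem, ?_, fun r hr => ?_⟩
  · intro hW
    apply hR.2.1
    ext t
    simp only [ValuationSubring.mem_top, iff_true]
    exact h3 t (by rw [hW]; exact ValuationSubring.mem_top _)
  · obtain ⟨p, q, rfl⟩ := hF r
    -- the coefficients are in `R`
    have inv_lt : ∀ m : F₀, 1 < R.valuation m → W.valuation (algebraMap F₀ F m)⁻¹ < 1 := by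
      intro m hm
      rw [← map_inv₀]
      apply h2
      rw [map_inv₀]
      exact inv_lt_one_of_one_lt₀ hm
    have hW1 : W.valuation (algebraMap F₀ F p + algebraMap F₀ F q * algebraMap K F z) ≤ 1 :=
      (W.valuation_le_one_iff _).2 hr
    have notboth : ¬ (1 < R.valuation p ∨ 1 < R.valuation q) := by
      intro hor
      rcases le_or_gt (R.valuation p) (R.valuation q) with hpq | hpq
      · have hq : 1 < R.valuation q := by
          rcases hor with h | h
          · exact lt_of_lt_of_le h hpq
          · exact h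
        have hq0 : q ≠ 0 := by rintro rfl; rw [map_zero] at hq; exact absurd hq not_lt_zero
        have hqF : algebraMap F₀ F q ≠ 0 := (map_ne_zero _).2 hq0
        have h5 : R.valuation (p / q) ≤ 1 := by
          rw [map_div₀]
          exact div_le_one_of_le₀ hpq zero_le
        obtain ⟨a, ha⟩ := hR.2.2 _ ((R.valuation_le_one_iff _).1 h5)
        have e : algebraMap K F (a + z) = (algebraMap F₀ F q)⁻¹ *
            (algebraMap F₀ F p + algebraMap F₀ F q * algebraMap K F z) -
              algebraMap F₀ F (p / q - algebraMap ℚ F₀ a) := by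
          simp only [map_add, map_sub, map_div₀, eq_ratCast, map_ratCast]
          field_simp
          ring
        have h6 : W.valuation (algebraMap K F (a + z)) < 1 := by
          rw [e]
          apply Valuation.map_sub_lt _ _ (h2 _ ha)
          rw [map_mul]
          exact lt_of_le_of_lt (mul_le_mul_right hW1 _) (by rw [mul_one]; exact inv_lt q hq)
        have h7 : (a : K) + z ≠ 0 := by
          intro h0
          have h8 : z = -(a : K) := by linear_combination h0
          rw [h8] at hz
          have h9 : (a ^ 2 - a + 1 : ℚ) = 0 := by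
            have : ((a ^ 2 - a + 1 : ℚ) : K) = 0 := by push_cast; linear_combination hz
            exact_mod_cast this
          nlinarith [sq_nonneg (a - 1 / 2)]
        rw [hunit _ h7] at h6
        exact lt_irrefl _ h6
      · have hp : 1 < R.valuation p := by
          rcases hor with h | h
          · exact h
          · exact h.trans hpq
        have hp0 : p ≠ 0 := by rintro rfl; rw [map_zero] at hp; exact absurd hp not_lt_zero
        have hpF : algebraMap F₀ F p ≠ 0 := (map_ne_zero _).2 hp0
        have h5 : R.valuation (q / p) < 1 := by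
          rw [map_div₀]
          exact (div_lt_one₀ (lt_trans zero_lt_one hp)).2 hpq
        have e : (1 : F) = (algebraMap F₀ F p)⁻¹ *
            (algebraMap F₀ F p + algebraMap F₀ F q * algebraMap K F z) -
              algebraMap F₀ F (q / p) * algebraMap K F z := by
          simp only [map_div₀]
          field_simp
          ring
        have h6 : W.valuation (1 : F) < 1 := by
          rw [e]
          apply Valuation.map_sub_lt
          · rw [map_mul]
            exact lt_of_le_of_lt (mul_le_mul_right hW1 _) (by rw [mul_one]; exact inv_lt p hp)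
          · rw [map_mul]
            exact lt_of_le_of_lt (mul_le_mul_right ((W.valuation_le_one_iff _).2 (hmem z)) _)
              (by rw [mul_one]; exact h2 _ h5)
        rw [map_one] at h6
        exact lt_irrefl _ h6
    have key : p ∈ R ∧ q ∈ R := by
      push Not at notboth
      exact ⟨(R.valuation_le_one_iff _).1 notboth.1, (R.valuation_le_one_iff _).1 notboth.2⟩
    obtain ⟨a, ha⟩ := hR.2.2 p key.1
    obtain ⟨b, hb⟩ := hR.2.2 q key.2
    refine ⟨a + b * z, ?_⟩
    have e : algebraMap F₀ F p + algebraMap F₀ F q * algebraMap K F z - algebraMap K F (a + b * z) =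
        algebraMap F₀ F (p - algebraMap ℚ F₀ a) +
          algebraMap F₀ F (q - algebraMap ℚ F₀ b) * algebraMap K F z := by
      simp only [map_add, map_sub, map_mul, eq_ratCast, map_ratCast]
      ring
    rw [e]
    apply Valuation.map_add_lt _ (h2 _ ha)
    rw [map_mul]
    exact lt_of_le_of_lt (mul_le_mul_right ((W.valuation_le_one_iff _).2 (hmem z)) _)
      (by rw [mul_one]; exact h2 _ hb)

/-- **A curve over `ℚ` has at most as many rational points over `ℚ` as over `K`.** -/
theorem pts_le {z : K} (hz : z ^ 2 + z + 1 = 0) (hK : ∀ c : K, ∃ a b : ℚ, c = a + b * z)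
    (hF : ∀ f : F, ∃ p q : F₀, f = algebraMap F₀ F p + algebraMap F₀ F q * algebraMap K F z)
    (hfin : (Pts K F).Finite) : (Pts ℚ F₀).Finite ∧ (Pts ℚ F₀).ncard ≤ (Pts K F).ncard := by
  choose f hf1 hf2 hf3 using exists_ext (F₀ := F₀) (F := F)
  have hmap : Set.MapsTo f (Pts ℚ F₀) (Pts K F) := fun R hR => pts_ext hz hK hF hR (hf1 R) (hf2 R) (hf3 R)
  have hinj : Set.InjOn f (Pts ℚ F₀) := by
    intro R hR R' hR' he
    ext t
    constructor
    · intro ht
      exact hf3 R' t (he ▸ hf1 R t ht)
    · intro ht
      exact hf3 R t (he.symm ▸ hf1 R' t ht)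
  exact ⟨Set.Finite.of_injOn hmap hinj hfin, Set.ncard_le_ncard_of_injOn f hmap hinj hfin⟩

end

end Pool.Agent.D0H69.UC
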