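import Mathlib

/-!
# The rational points of `y² + D y = x³`, if they are finitely many

2-adic dynamics of the duplication (after the library's treatment of `y² + y = x³`).
-/

set_option autoImplicit false

namespace Pool.Agent.D0H69.UC

section
variable {k : Type} [Field k] [CharZero k] {D : k}

/-- The duplication of a point. -/
theorem dblD {x y : k} (h : y ^ 2 + D * y = x ^ 3) (h2 : 4 * x ^ 3 + D ^ 2 ≠ 0) :
    ∃ y' : k, y' ^ 2 + D * y' = (x * (x ^ 3 - 2 * D ^ 2) / (4 * x ^ 3 + D ^ 2)) ^ 3 := by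
  have h3 : (2 * y + D) ^ 2 = 4 * x ^ 3 + D ^ 2 := by linear_combination 4 * h
  have h4 : 2 * y + D ≠ 0 := fun h0 => h2 (by rw [← h3, h0]; ring)
  set l : k := 3 * x ^ 2 / (2 * y + D) with hl
  have hlm : l * (2 * y + D) = 3 * x ^ 2 := by
    rw [hl]
    field_simp
  have hx' : x * (x ^ 3 - 2 * D ^ 2) / (4 * x ^ 3 + D ^ 2) = l ^ 2 - 2 * x := by
    rw [div_eq_iff h2, ← h3]
    have : l ^ 2 * (2 * y + D) ^ 2 = 9 * x ^ 4 := by
      rw [← mul_pow, hlm]
      ring
    rw [sub_mul, this, h3]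
    ring
  refine ⟨-(y + l * (l ^ 2 - 3 * x)) - D, ?_⟩
  rw [hx']
  have h5 : 4 * ((-(y + l * (l ^ 2 - 3 * x)) - D) ^ 2 + D * (-(y + l * (l ^ 2 - 3 * x)) - D)) + D ^ 2 =
      4 * (l ^ 2 - 2 * x) ^ 3 + D ^ 2 := by
    linear_combination h3 + (4 * l ^ 2 - 12 * x) * hlm
  have h6 : (4 : k) ≠ 0 := by norm_num
  have h7 := add_right_cancel h5
  exact mul_left_cancel₀ h6 h7

end

section
variable {k Γ : Type} [Field k] [LinearOrderedCommGroupWithZero Γ]

/-- a valuation such that `2` is a uniformizer and the residue field has four elements -/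
structure Two (w : Valuation k Γ) : Prop where
  two : w 2 < 1
  unif : ∀ z : k, w z < 1 → w z ≤ w 2
  res : ∀ z : k, w z ≤ 1 → w (z ^ 4 - z) < 1

variable {w : Valuation k Γ}

theorem Two.four (h : Two w) : w 4 < 1 := by
  have : (4 : k) = 2 * 2 := by norm_num
  rw [this, map_mul]
  calc w 2 * w 2 ≤ w 2 * 1 := mul_le_mul_right h.two.le _
    _ < 1 := by rw [mul_one]; exact h.two

theorem Two.three (h : Two w) : w 3 = 1 := by
  have : (3 : k) = 1 + 2 := by norm_num
  rw [this, w.map_one_add_of_lt h.two]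

theorem w_pos {z : k} (hz : z ≠ 0) : 0 < w z := zero_lt_iff.2 ((Valuation.ne_zero_iff _).2 hz)

variable {D : k}

/-- the invariant `x³ / D²` of the duplicate -/
def Phi (X : k) : k := X * ((X - 2) / (4 * X + 1)) ^ 3

theorem phi_big (h : Two w) {X : k} (hX : 1 < w X) (h4 : 4 * X + 1 ≠ 0) : w X < w (Phi X) := by
  have h1 : w (X - 2) = w X := by
    rw [sub_eq_add_neg, Valuation.map_add_eq_of_lt_left]
    rw [Valuation.map_neg]
    exact h.two.trans hX
  have hp : 0 < w X := lt_trans zero_lt_one hX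
  have h2 : w (4 * X + 1) < w X := by
    apply Valuation.map_add_lt
    · rw [map_mul]
      calc w 4 * w X < 1 * w X := mul_lt_mul_of_pos_right h.four hp
        _ = w X := one_mul _
    · rw [map_one]
      exact hX
  have h3 : 0 < w (4 * X + 1) := w_pos h4
  have h5 : 1 < w X / w (4 * X + 1) := (one_lt_div₀ h3).2 h2
  rw [Phi, map_mul, map_pow, map_div₀, h1]
  have h6 : 1 < (w X / w (4 * X + 1)) ^ 3 := one_lt_pow₀ h5 (by norm_num)
  calc w X = w X * 1 := (mul_one _).symm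
    _ < w X * (w X / w (4 * X + 1)) ^ 3 := mul_lt_mul_of_pos_left h6 hp

theorem phi_small (h : Two w) {X : k} (hX : w X < 1) (hX0 : X ≠ 0) : w (Phi X) < w X := by
  have h1 : w (X - 2) < 1 := by
    rw [sub_eq_add_neg]
    apply Valuation.map_add_lt _ hX
    rw [Valuation.map_neg]
    exact h.two
  have h2 : w (4 * X + 1) = 1 := by
    rw [add_comm]
    apply Valuation.map_one_add_of_lt
    rw [map_mul]
    calc w 4 * w X ≤ w 4 * 1 := mul_le_mul_right hX.le _
      _ < 1 := by rw [mul_one]; exact h.four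
  rw [Phi, map_mul, map_pow, map_div₀, h2, div_one]
  have h3 : w (X - 2) ^ 3 < 1 := pow_lt_one₀ zero_le h1 (by norm_num)
  calc w X * w (X - 2) ^ 3 < w X * 1 := mul_lt_mul_of_pos_left h3 (w_pos hX0)
    _ = w X := mul_one _

theorem phi_one [CharZero k] (h : Two w) {X : k} (h2 : w (X + 1) < 1) :
    4 * X + 1 ≠ 0 ∧ w (Phi X + 1) = w (X + 1) * w 2 := by
  set t : k := X + 1 with ht
  have hX : X = t - 1 := by rw [ht]; ring
  have h4 : w (4 * t - 3) = 1 := by
    rw [sub_eq_neg_add, Valuation.map_add_eq_of_lt_left, Valuation.map_neg, h.three]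
    rw [Valuation.map_neg, h.three, map_mul]
    calc w 4 * w t ≤ w 4 * 1 := mul_le_mul_right h2.le _
      _ < 1 := by rw [mul_one]; exact h.four
  have h40 : 4 * t - 3 ≠ 0 := by
    intro h0
    rw [h0, map_zero] at h4
    exact zero_ne_one h4
  have e4 : 4 * X + 1 = 4 * t - 3 := by rw [hX]; ring
  refine ⟨by rw [e4]; exact h40, ?_⟩
  have e : Phi X + 1 = t * (54 + (t ^ 3 + 54 * t ^ 2 - 108 * t)) / (4 * t - 3) ^ 3 := by
    rw [Phi, e4, div_pow, mul_div_assoc', div_add' _ _ _ (pow_ne_zero 3 h40), hX]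
    congr 1
    ring
  have hle : w t ≤ w 2 := h.unif t h2
  have w2 : 0 < w 2 := w_pos two_ne_zero
  have w27 : w 27 = 1 := by
    have : (27 : k) = 3 ^ 3 := by norm_num
    rw [this, map_pow, h.three, one_pow]
  have w54 : w 54 = w 2 := by
    have : (54 : k) = 2 * 27 := by norm_num
    rw [this, map_mul, w27, mul_one]
  have hlt : w (t ^ 3 + 54 * t ^ 2 - 108 * t) < w 2 := by
    have a1 : w (t ^ 3) < w 2 := by
      rw [pow_succ, map_mul, map_pow]
      calc w t ^ 2 * w t < 1 * w 2 := by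
            rcases eq_or_lt_of_le (zero_le : (0 : Γ) ≤ w t) with h0 | h0
            · rw [← h0, mul_zero, one_mul]; exact w2
            · exact lt_of_lt_of_le (mul_lt_mul_of_pos_right (pow_lt_one₀ zero_le h2 (by norm_num)) h0)
                (by rw [one_mul, one_mul]; exact hle)
        _ = w 2 := one_mul _
    have a2 : w (54 * t ^ 2) < w 2 := by
      rw [map_mul, w54, map_pow]
      calc w 2 * w t ^ 2 < w 2 * 1 :=
            mul_lt_mul_of_pos_left (pow_lt_one₀ zero_le h2 (by norm_num)) w2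
        _ = w 2 := mul_one _
    have a3 : w (108 * t) < w 2 := by
      have : (108 : k) = 2 * 54 := by norm_num
      rw [this, map_mul, map_mul, w54]
      calc w 2 * w 2 * w t ≤ w 2 * w 2 * 1 := mul_le_mul_right h2.le _
        _ = w 2 * w 2 := mul_one _
        _ < w 2 * 1 := mul_lt_mul_of_pos_left h.two w2
        _ = w 2 := mul_one _
    exact Valuation.map_sub_lt _ (Valuation.map_add_lt _ a1 a2) a3
  have h9 : w (54 + (t ^ 3 + 54 * t ^ 2 - 108 * t)) = w 2 := by
    rw [Valuation.map_add_eq_of_lt_left, w54]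
    rw [w54]
    exact hlt
  rw [e, map_div₀, map_mul, map_pow, h4, one_pow, div_one, h9]

end

section
variable {k Γ : Type} [Field k] [CharZero k] [LinearOrderedCommGroupWithZero Γ] {w : Valuation k Γ} {D : k}

/-- **The rational points** of `y² + D y = x³`, if they are finitely many and `D`, `D / 2` are not
cubes. -/
theorem no_otherD (h : Two w) (hD : D ≠ 0) (h1 : ∀ r : k, r ^ 3 ≠ D) (h2 : ∀ r : k, 2 * r ^ 3 ≠ D)
    (hfin : {x : k | x ≠ 0 ∧ ∃ y, y ^ 2 + D * y = x ^ 3}.Finite) :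
    ∀ x y : k, y ^ 2 + D * y = x ^ 3 → x = 0 := by
  set S : Set k := {x : k | x ≠ 0 ∧ ∃ y, y ^ 2 + D * y = x ^ 3} with hS
  -- no points of order two or six
  have hden : ∀ x : k, x ≠ 0 → 4 * x ^ 3 + D ^ 2 ≠ 0 := by
    intro x hx h0
    apply h2 (-(D / (2 * x)))
    have hx3 : x ^ 3 ≠ 0 := pow_ne_zero 3 hx
    field_simp
    linear_combination (-1 : k) * h0
  have hnum : ∀ x : k, x ≠ 0 → x ^ 3 - 2 * D ^ 2 ≠ 0 := by
    intro x hx h0
    apply h2 (x ^ 2 / (2 * D))
    field_simp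
    linear_combination (x ^ 3 + 2 * D ^ 2) * h0
  have hstep : ∀ x ∈ S, x * (x ^ 3 - 2 * D ^ 2) / (4 * x ^ 3 + D ^ 2) ∈ S := by
    rintro x ⟨hx, y, hxy⟩
    exact ⟨div_ne_zero (mul_ne_zero hx (hnum x hx)) (hden x hx), dblD hxy (hden x hx)⟩
  have hphi : ∀ x : k, x ≠ 0 → (x * (x ^ 3 - 2 * D ^ 2) / (4 * x ^ 3 + D ^ 2)) ^ 3 / D ^ 2 =
      Phi (x ^ 3 / D ^ 2) := by
    intro x hx
    have h4 := hden x hx
    have e1 : x ^ 3 / D ^ 2 - 2 = (x ^ 3 - 2 * D ^ 2) / D ^ 2 := by field_simp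
    have e2 : 4 * (x ^ 3 / D ^ 2) + 1 = (4 * x ^ 3 + D ^ 2) / D ^ 2 := by field_simp
    rw [Phi, e1, e2]
    field_simp
  have hX0 : ∀ x : k, x ≠ 0 → x ^ 3 / D ^ 2 ≠ 0 := fun x hx =>
    div_ne_zero (pow_ne_zero 3 hx) (pow_ne_zero 2 hD)
  have hX4 : ∀ x : k, x ≠ 0 → 4 * (x ^ 3 / D ^ 2) + 1 ≠ 0 := by
    intro x hx h0
    apply hden x hx
    field_simp at h0
    linear_combination h0
  intro x0 y0 hxy0
  by_contra hx0
  have hSne : S.Nonempty := ⟨x0, hx0, y0, hxy0⟩
  -- the values are units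
  have hle : ∀ x ∈ S, w (x ^ 3 / D ^ 2) ≤ 1 := by
    obtain ⟨a, haS, hamax⟩ := Set.exists_max_image S (fun x => w (x ^ 3 / D ^ 2)) hfin hSne
    intro x hx
    refine (hamax x hx).trans ?_
    by_contra hgt
    rw [not_le] at hgt
    have h5 := hamax _ (hstep a haS)
    simp only [hphi a haS.1] at h5
    exact absurd h5 (not_le.2 (phi_big h hgt (hX4 a haS.1)))
  have hge : ∀ x ∈ S, 1 ≤ w (x ^ 3 / D ^ 2) := by
    obtain ⟨a, haS, hamin⟩ := Set.exists_min_image S (fun x => w (x ^ 3 / D ^ 2)) hfin hSne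
    intro x hx
    refine le_trans ?_ (hamin x hx)
    by_contra hlt
    rw [not_le] at hlt
    have h5 := hamin _ (hstep a haS)
    simp only [hphi a haS.1] at h5
    exact absurd h5 (not_le.2 (phi_small h hlt (hX0 a haS.1)))
  -- they are `-1` in the residue field
  have hres : ∀ x ∈ S, w (x ^ 3 / D ^ 2 + 1) < 1 := by
    rintro x ⟨hx, y, hxy⟩
    have hu : w (x ^ 3 / D ^ 2) = 1 := le_antisymm (hle x ⟨hx, y, hxy⟩) (hge x ⟨hx, y, hxy⟩)
    set Y := y / D with hY
    have e : Y * (Y + 1) = x ^ 3 / D ^ 2 := by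
      rw [hY]
      field_simp
      linear_combination hxy
    have hY1 : w Y ≤ 1 := by
      by_contra hgt
      rw [not_le] at hgt
      have h6 : w (Y + 1) = w Y := by
        rw [Valuation.map_add_eq_of_lt_left]
        rw [map_one]
        exact hgt
      have h7 := congrArg w e
      rw [map_mul, h6, hu] at h7
      have h8 : 1 < w Y * w Y := by
        calc (1 : Γ) < w Y := hgt
          _ = w Y * 1 := (mul_one _).symm
          _ < w Y * w Y := mul_lt_mul_of_pos_left hgt (lt_trans zero_lt_one hgt)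
      exact absurd h7 h8.ne'
    have h3 := h.res Y hY1
    have e3 : Y ^ 4 - Y = Y * (Y + 1 + (-2)) * (Y * (Y + 1) + 1) := by ring
    have hY2 : w (Y + 1) ≤ 1 := (Valuation.map_add_le _ hY1 (by rw [map_one]))
    have hYu : w Y = 1 ∧ w (Y + 1) = 1 := by
      have h7 := congrArg w e
      rw [map_mul, hu] at h7
      constructor
      · by_contra hc
        have h8 : w Y < 1 := lt_of_le_of_ne hY1 hc
        have h9 : w Y * w (Y + 1) < 1 := lt_of_le_of_lt (mul_le_mul_right hY2 _) (by rw [mul_one]; exact h8)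
        exact absurd h7 h9.ne
      · by_contra hc
        have h8 : w (Y + 1) < 1 := lt_of_le_of_ne hY2 hc
        have h9 : w Y * w (Y + 1) < 1 := lt_of_le_of_lt (mul_le_mul_left hY1 _) (by rw [one_mul]; exact h8)
        exact absurd h7 h9.ne
    have hYm : w (Y + 1 + (-2)) = 1 := by
      rw [Valuation.map_add_eq_of_lt_left, hYu.2]
      rw [Valuation.map_neg, hYu.2]
      exact h.two
    rw [e3, map_mul, map_mul, hYu.1, hYm, one_mul, one_mul, e] at h3
    exact h3
  -- so they are `-1`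
  have hone : ∀ x ∈ S, x ^ 3 / D ^ 2 + 1 = 0 := by
    by_contra hc
    push Not at hc
    obtain ⟨x1, hx1, hne⟩ := hc
    set S' : Set k := {x | x ∈ S ∧ x ^ 3 / D ^ 2 + 1 ≠ 0} with hS'
    obtain ⟨a, ⟨haS, ha1⟩, hamin⟩ := Set.exists_min_image S' (fun x => w (x ^ 3 / D ^ 2 + 1))
      (hfin.subset fun x hx => hx.1) ⟨x1, hx1, hne⟩
    obtain ⟨-, h6⟩ := phi_one h (hres a haS)
    have w2 : 0 < w 2 := w_pos two_ne_zero
    have hpos : 0 < w (a ^ 3 / D ^ 2 + 1) := w_pos ha1
    have h7 : Phi (a ^ 3 / D ^ 2) + 1 ≠ 0 := by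
      rw [← Valuation.ne_zero_iff w, h6]
      exact mul_ne_zero hpos.ne' w2.ne'
    have h5 := hamin (a * (a ^ 3 - 2 * D ^ 2) / (4 * a ^ 3 + D ^ 2)) ⟨hstep a haS, by
      rw [hphi a haS.1]; exact h7⟩
    simp only [hphi a haS.1] at h5
    rw [h6] at h5
    have h8 : w (a ^ 3 / D ^ 2 + 1) * w 2 < w (a ^ 3 / D ^ 2 + 1) := by
      calc _ < w (a ^ 3 / D ^ 2 + 1) * 1 := mul_lt_mul_of_pos_left h.two hpos
        _ = _ := mul_one _
    exact absurd h5 (not_le.2 h8)
  have h9 := hone x0 ⟨hx0, y0, hxy0⟩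
  apply h1 (-(D / x0))
  field_simp at h9 ⊢
  linear_combination (-1 : k) * h9

end

end Pool.Agent.D0H69.UC
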