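import Pool.Agent.Y455.CTK.JEX
import Pool.Agent.D0H69.UC.Tor

/-!
# The prime two of the third cyclotomic field, and the rational points of `y² + D y = x³`
-/

set_option autoImplicit false

namespace Pool.Agent.D0H69.UC

open NumberField IsDedekindDomain
open Pool.Agent.Y692.QS (Ei)
open WithZero (exp)

theorem two_dvd_iff (z : Ei) : (2 : Ei) ∣ z ↔ 2 ∣ z.re ∧ 2 ∣ z.im := by
  constructor
  · rintro ⟨c, rfl⟩
    have e : (2 : Ei) * c = ⟨2 * c.re, 2 * c.im⟩ := by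
      rw [two_mul]
      ext <;> simp <;> ring
    rw [e]
    exact ⟨dvd_mul_right _ _, dvd_mul_right _ _⟩
  · rintro ⟨⟨a, ha⟩, ⟨b, hb⟩⟩
    refine ⟨⟨a, b⟩, ?_⟩
    rw [two_mul]
    ext
    · simp [ha]; ring
    · simp [hb]; ring

theorem pow_four (z : Ei) : (2 : Ei) ∣ z ^ 4 - z := by
  rw [two_dvd_iff]
  have e : z ^ 4 - z = ⟨(z.re ^ 2 - z.im ^ 2) ^ 2 - (2 * z.re * z.im - z.im ^ 2) ^ 2 - z.re,
      2 * (z.re ^ 2 - z.im ^ 2) * (2 * z.re * z.im - z.im ^ 2) - (2 * z.re * z.im - z.im ^ 2) ^ 2 - z.im⟩ := by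
    rw [show z ^ 4 = (z * z) * (z * z) by ring]
    ext <;> simp <;> ring
  rw [e]
  constructor
  · rcases Int.even_or_odd' z.re with ⟨a, ha | ha⟩ <;> rcases Int.even_or_odd' z.im with ⟨b, hb | hb⟩ <;>
      simp only [ha, hb] <;> ring_nf <;> omega
  · rcases Int.even_or_odd' z.re with ⟨a, ha | ha⟩ <;> rcases Int.even_or_odd' z.im with ⟨b, hb | hb⟩ <;>
      simp only [ha, hb] <;> ring_nf <;> omega

theorem prime_two : Prime (2 : Ei) := by
  refine ⟨two_ne_zero, ?_, fun a b hab => ?_⟩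
  · intro h
    obtain ⟨h1, -⟩ := (two_dvd_iff 1).1 h.dvd
    have : (1 : Ei).re = 1 := rfl
    rw [this] at h1
    omega
  · rw [two_dvd_iff] at hab
    rw [two_dvd_iff, two_dvd_iff]
    obtain ⟨h1, h2⟩ := hab
    have e1 : (a * b).re = a.re * b.re - a.im * b.im := by simp; ring
    have e2 : (a * b).im = a.re * b.im + a.im * b.re - a.im * b.im := by simp; ring
    rw [e1] at h1
    rw [e2] at h2
    rcases Int.even_or_odd' a.re with ⟨x, hx | hx⟩ <;> rcases Int.even_or_odd' a.im with ⟨y, hy | hy⟩ <;>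
      rcases Int.even_or_odd' b.re with ⟨u, hu | hu⟩ <;> rcases Int.even_or_odd' b.im with ⟨v, hv | hv⟩ <;>
      simp only [hx, hy, hu, hv] at h1 h2 ⊢ <;> ring_nf at h1 h2 ⊢ <;> omega

theorem lt_one_iff {a : WithZero (Multiplicative ℤ)} : a < 1 ↔ a ≤ exp (-1 : ℤ) := by
  rcases eq_or_ne a 0 with rfl | h
  · simp
  · obtain ⟨n, rfl⟩ : ∃ n : ℤ, a = exp n := ⟨WithZero.log a, (WithZero.exp_log h).symm⟩
    rw [← WithZero.exp_zero, WithZero.exp_lt_exp, WithZero.exp_le_exp]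
    omega

section
variable (K : Type) [Field K] [NumberField K] [IsCyclotomicExtension {3} ℚ K]

/-- the prime two -/
theorem exists_two : ∃ v : HeightOneSpectrum (𝓞 K), Two (v.valuation K) := by
  obtain ⟨⟨j, -⟩, -⟩ := Pool.Agent.Y455.CTK.jex K
  have hp : Prime (2 : 𝓞 K) := by
    have := (MulEquiv.prime_iff (j : Ei ≃* 𝓞 K) (p := 2)).2 prime_two
    rwa [show ((j : Ei ≃* 𝓞 K) 2) = 2 from map_ofNat j 2] at this
  have h4 : ∀ z : 𝓞 K, (2 : 𝓞 K) ∣ z ^ 4 - z := by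
    intro z
    obtain ⟨z, rfl⟩ := j.surjective z
    obtain ⟨c, hc⟩ := pow_four z
    exact ⟨j c, by rw [← map_pow, ← map_sub, hc, map_mul, map_ofNat]⟩
  let v : HeightOneSpectrum (𝓞 K) := ⟨Ideal.span {2}, (Ideal.span_singleton_prime hp.ne_zero).2 hp,
    by rw [Ne, Ideal.span_singleton_eq_bot]; exact hp.ne_zero⟩
  have hv2 : v.valuation K 2 = exp (-1 : ℤ) := by
    have h1 := v.intValuation_singleton hp.ne_zero rfl
    have h2 := v.valuation_of_algebraMap (K := K) (2 : 𝓞 K)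
    rw [h1] at h2
    exact h2
  have hmem : ∀ z : 𝓞 K, z ∈ v.asIdeal ↔ 2 ∣ z := fun z => Ideal.mem_span_singleton
  have hlt : ∀ z : 𝓞 K, v.valuation K (z : K) < 1 ↔ 2 ∣ z := by
    intro z
    rw [v.valuation_lt_one_iff_mem, hmem]
  refine ⟨v, ?_, ?_, ?_⟩
  · rw [hv2, lt_one_iff]
  · intro z hz
    rw [hv2]
    exact lt_one_iff.1 hz
  · intro z hz
    have : IsPrincipalIdealRing (𝓞 K) := IsCyclotomicExtension.Rat.three_pid K
    obtain ⟨a, b, hco, hab⟩ := IsFractionRing.exists_reduced_fraction (A := 𝓞 K) z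
    rw [IsFractionRing.mk'_eq_div] at hab
    have hb0 : (b : 𝓞 K) ≠ 0 := nonZeroDivisors.ne_zero b.2
    have hbK : ((b : 𝓞 K) : K) ≠ 0 := by
      intro h
      exact hb0 (RingOfIntegers.coe_injective (h.trans (map_zero _).symm))
    have hb : ¬ (2 : 𝓞 K) ∣ b := by
      intro h2b
      have h2a : ¬ (2 : 𝓞 K) ∣ a := fun h2a => hp.not_isUnit (hco h2a h2b)
      have h5 : v.valuation K (a : K) = 1 :=
        le_antisymm (v.valuation_le_one a) (not_lt.1 fun h => h2a ((hlt a).1 h))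
      have h6 : v.valuation K ((b : 𝓞 K) : K) < 1 := (hlt _).2 h2b
      rw [← hab, map_div₀] at hz
      have h7 : 0 < v.valuation K ((b : 𝓞 K) : K) := w_pos hbK
      have h8 : v.valuation K (a : K) ≤ v.valuation K ((b : 𝓞 K) : K) := by
        rw [div_le_one₀ h7] at hz
        exact hz
      rw [h5] at h8
      exact absurd h6 (not_lt.2 h8)
    have hb1 : v.valuation K ((b : 𝓞 K) : K) = 1 :=
      le_antisymm (v.valuation_le_one _) (not_lt.1 fun h => hb ((hlt _).1 h))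
    have hb3 : (2 : 𝓞 K) ∣ (b : 𝓞 K) ^ 3 - 1 := by
      have h5 := h4 b
      have e : (b : 𝓞 K) ^ 4 - b = b * ((b : 𝓞 K) ^ 3 - 1) := by ring
      rw [e] at h5
      exact (hp.dvd_or_dvd h5).resolve_left hb
    have h6 : (2 : 𝓞 K) ∣ a ^ 4 - a * (b : 𝓞 K) ^ 3 := by
      have e : a ^ 4 - a * (b : 𝓞 K) ^ 3 = (a ^ 4 - a) - a * ((b : 𝓞 K) ^ 3 - 1) := by ring
      rw [e]
      exact dvd_sub (h4 a) (hb3.mul_left a)
    have h7 := (hlt _).2 h6
    have e : z ^ 4 - z = ((a ^ 4 - a * (b : 𝓞 K) ^ 3 : 𝓞 K) : K) / ((b : 𝓞 K) : K) ^ 4 := by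
      rw [← hab]
      push_cast
      field_simp
    rw [e, map_div₀, map_pow, hb1, one_pow, div_one]
    exact h7

end

end Pool.Agent.D0H69.UC
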