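import Pool.Agent.D0H69.UC.Ext
import Pool.Agent.D0H69.UC.Tw

/-!
# Covers of `y² + D y = x³`: at most three times as many rational points as the degree
-/

set_option autoImplicit false
set_option linter.unusedVariables false
set_option linter.unusedSectionVars false

open Finset IntermediateField NumberField IsDedekindDomain

namespace Pool.Agent.D0H69.UC

open FF

/-- `F` is the function field of a curve over `k` -/
def IsC (k F : Type) [Field k] [Field F] [Algebra k F] : Prop :=
  ∃ x : F, Transcendental k x ∧ FiniteDimensional k⟮x⟯ F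

section
variable {K F : Type} [Field K] [Field F] [Algebra K F] [CharZero K]

/-- the degree over `K(x)` is at most twice the degree over `K(x, y)` -/
theorem deg_le {D : K} {x y : F} (h : y ^ 2 + algebraMap K F D * y = x ^ 3)
    (hfd : FiniteDimensional K⟮x⟯ F) :
    Module.finrank K⟮x⟯ F ≤ 2 * Module.finrank (IntermediateField.adjoin K {x, y}) F := by
  have h1 : (K⟮x⟯⟮y⟯).restrictScalars K = IntermediateField.adjoin K {x, y} := adjoin_simple_adjoin_simple K x y
  have h2 : Module.finrank (IntermediateField.adjoin K {x, y}) F = Module.finrank K⟮x⟯⟮y⟯ F := by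
    rw [← h1]
    rfl
  rw [h2, ← Module.finrank_mul_finrank K⟮x⟯ K⟮x⟯⟮y⟯ F]
  apply Nat.mul_le_mul_right
  have hy : IsIntegral K⟮x⟯ y := Algebra.IsIntegral.isIntegral y
  rw [IntermediateField.adjoin.finrank hy]
  let X' : K⟮x⟯ := ⟨x, mem_adjoin_simple_self K x⟩
  let p : Polynomial K⟮x⟯ := Polynomial.X ^ 2 + Polynomial.C (algebraMap K K⟮x⟯ D) * Polynomial.X -
    Polynomial.C (X' ^ 3)
  have hp : p.Monic := by
    unfold p
    monicity!
  have hpd : p.natDegree = 2 := by
    unfold p
    compute_degree!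
  have h3 : Polynomial.aeval y p = 0 := by
    unfold p
    simp only [map_sub, map_add, map_mul, map_pow, Polynomial.aeval_X, Polynomial.aeval_C]
    have e1 : algebraMap K⟮x⟯ F (algebraMap K K⟮x⟯ D) = algebraMap K F D := rfl
    have e2 : algebraMap K⟮x⟯ F X' = x := rfl
    rw [e1, e2]
    linear_combination h
  calc (minpoly K⟮x⟯ y).natDegree ≤ p.natDegree :=
        Polynomial.natDegree_le_natDegree (minpoly.min _ _ hp h3)
    _ = 2 := hpd

/-- curves over `K` which cover `E_D` -/
theorem count_D {D : K} (hD : D ≠ 0) (hpt : ∀ x y : K, y ^ 2 + D * y = x ^ 3 → x = 0)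
    (hC : IsC K F) {x y : F} (hx : Transcendental K x) (h : y ^ 2 + algebraMap K F D * y = x ^ 3) :
    (Pts K F).Finite ∧ (Pts K F).ncard ≤ 3 * Module.finrank (IntermediateField.adjoin K {x, y}) F := by
  obtain ⟨f, hf, hffd⟩ := hC
  have : IsFF K F := FF.IsFF.of_finite hf hffd
  have hfd : FiniteDimensional K⟮x⟯ F := FF.IsFF.finite hx
  have h4 : (4 : F) ≠ 0 := by
    have : CharZero F := charZero_of_injective_algebraMap (algebraMap K F).injective
    norm_num
  have e : (y + algebraMap K F (D / 2)) ^ 2 = x ^ 3 + algebraMap K F 0 * x + algebraMap K F (D ^ 2 / 4) := by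
    have e2 : algebraMap K F D = 2 * algebraMap K F (D / 2) := by
      rw [← map_ofNat (algebraMap K F) 2, ← map_mul]
      congr 1
      field_simp
    have e3 : algebraMap K F (D ^ 2 / 4) = (algebraMap K F (D / 2)) ^ 2 := by
      rw [← map_pow]
      congr 1
      ring
    rw [e2] at h
    rw [e3, map_zero, zero_mul, add_zero]
    linear_combination h
  obtain ⟨h1, h2⟩ := count hx e ∅ {0} (by simp) (by
    intro c d hcd
    right
    rw [mem_singleton]
    apply hpt c (d - D / 2)
    linear_combination hcd)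
  refine ⟨h1, ?_⟩
  simp only [card_empty, card_singleton] at h2
  have h3 := deg_le h hfd
  omega

/-- curves over `ℚ` with a map to `E_D` over `K` -/
theorem count_Q {F₀ : Type} [Field F₀] [Algebra ℚ F₀] [Algebra F₀ F] {z : K} (hz : z ^ 2 + z + 1 = 0)
    (hK : ∀ c : K, ∃ a b : ℚ, c = a + b * z)
    (hF : IntermediateField.adjoin F₀ (Set.range (algebraMap K F)) = ⊤)
    {D : K} (hD : D ≠ 0) (hpt : ∀ x y : K, y ^ 2 + D * y = x ^ 3 → x = 0)
    (hC : IsC K F) {x y : F} (hx : Transcendental K x) (h : y ^ 2 + algebraMap K F D * y = x ^ 3) :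
    (Pts ℚ F₀).Finite ∧ (Pts ℚ F₀).ncard ≤ 3 * Module.finrank (IntermediateField.adjoin K {x, y}) F := by
  obtain ⟨h1, h2⟩ := count_D hD hpt hC hx h
  have hF' : ∀ f : F, ∃ p q : F₀, f = algebraMap F₀ F p + algebraMap F₀ F q * algebraMap K F z := by
    set t := algebraMap K F z with ht
    have ht0 : t ^ 2 + t + 1 = 0 := by
      rw [ht, ← map_pow, ← map_add, ← map_one (algebraMap K F), ← map_add, hz, map_zero]
    have hint : IsIntegral F₀ t := by
      refine ⟨Polynomial.X ^ 2 + Polynomial.X + Polynomial.C 1, by monicity!, ?_⟩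
      simp only [Polynomial.eval₂_add, Polynomial.eval₂_pow, Polynomial.eval₂_X, Polynomial.eval₂_one, map_one]
      exact ht0
    have h3 : F₀⟮t⟯ = ⊤ := by
      rw [← hF]
      apply le_antisymm
      · exact IntermediateField.adjoin.mono F₀ _ _ (by rintro _ rfl; exact ⟨z, rfl⟩)
      · rw [IntermediateField.adjoin_le_iff]
        rintro _ ⟨c, rfl⟩
        obtain ⟨a, b, rfl⟩ := hK c
        rw [map_add, map_mul, map_ratCast, map_ratCast]
        have h5 : t ∈ F₀⟮t⟯ := mem_adjoin_simple_self F₀ t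
        have h6 : ∀ q : ℚ, (q : F) ∈ F₀⟮t⟯ := fun q => SubfieldClass.ratCast_mem _ q
        exact add_mem (h6 a) (mul_mem (h6 b) h5)
    have h4 : Algebra.adjoin F₀ {t} = ⊤ := by
      rw [← IntermediateField.adjoin_simple_toSubalgebra_of_isAlgebraic hint.isAlgebraic, h3]
      rfl
    intro f
    have hf : f ∈ Algebra.adjoin F₀ {t} := by rw [h4]; exact Algebra.mem_top
    induction hf using Algebra.adjoin_induction with
    | mem x hx => 
      refine ⟨0, 1, ?_⟩
      rw [Set.mem_singleton_iff.1 hx, map_zero, map_one]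
      ring
    | algebraMap r => exact ⟨r, 0, by rw [map_zero]; ring⟩
    | add a b _ _ iha ihb =>
      obtain ⟨p, q, rfl⟩ := iha
      obtain ⟨p', q', rfl⟩ := ihb
      exact ⟨p + p', q + q', by rw [map_add, map_add]; ring⟩
    | mul a b _ _ iha ihb =>
      obtain ⟨p, q, rfl⟩ := iha
      obtain ⟨p', q', rfl⟩ := ihb
      refine ⟨p * p' - q * q', p * q' + q * p' - q * q', ?_⟩
      simp only [map_add, map_sub, map_mul]
      linear_combination (algebraMap F₀ F q * algebraMap F₀ F q') * ht0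
  obtain ⟨h3, h4⟩ := pts_le hz hK hF' h1
  exact ⟨h3, h4.trans h2⟩

end

section
variable {K : Type} [Field K] [NumberField K] [IsCyclotomicExtension {3} ℚ K]

theorem exists_z : ∃ z : K, z ^ 2 + z + 1 = 0 ∧ ∀ c : K, ∃ a b : ℚ, c = a + b * z := by
  have h := IsCyclotomicExtension.zeta_spec 3 ℚ K
  have h2 := h.isRoot_cyclotomic (by norm_num)
  rw [Polynomial.cyclotomic_three] at h2
  have hz : (IsCyclotomicExtension.zeta 3 ℚ K) ^ 2 + IsCyclotomicExtension.zeta 3 ℚ K + 1 = 0 := by
    simpa [Polynomial.IsRoot] using h2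
  set z := IsCyclotomicExtension.zeta 3 ℚ K with hzd
  refine ⟨z, hz, ?_⟩
  have hnr : ∀ q : ℚ, z ≠ q := by
    intro q hq
    rw [hq] at hz
    have h9 : (q ^ 2 + q + 1 : ℚ) = 0 := by
      have : ((q ^ 2 + q + 1 : ℚ) : K) = 0 := by push_cast; linear_combination hz
      exact_mod_cast this
    nlinarith [sq_nonneg (q + 1 / 2)]
  have hli : LinearIndependent ℚ ![(1 : K), z] := by
    rw [LinearIndependent.pair_iff]
    intro s t hst
    rw [Algebra.smul_def, Algebra.smul_def, mul_one, eq_ratCast, eq_ratCast] at hst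
    by_cases ht : t = 0
    · subst ht
      rw [Rat.cast_zero, zero_mul, add_zero] at hst
      exact ⟨by exact_mod_cast hst, rfl⟩
    · exfalso
      apply hnr (-s / t)
      have : (t : K) ≠ 0 := by exact_mod_cast ht
      push_cast
      field_simp
      linear_combination hst
  have hfr : Module.finrank ℚ K = 2 := by
    rw [IsCyclotomicExtension.finrank K (Polynomial.cyclotomic.irreducible_rat (n := 3) (by norm_num))]
    rfl
  have hsp := hli.span_eq_top_of_card_eq_finrank (by rw [hfr]; rfl)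
  intro c
  have hc : c ∈ Submodule.span ℚ (Set.range ![(1 : K), z]) := by rw [hsp]; exact Submodule.mem_top
  simp only [Matrix.range_cons, Matrix.range_empty, Set.union_empty, Set.singleton_union] at hc
  rw [Submodule.mem_span_pair] at hc
  obtain ⟨a, b, rfl⟩ := hc
  exact ⟨a, b, by rw [Algebra.smul_def, Algebra.smul_def, mul_one]; rfl⟩

/-- the rational points -/
theorem points {D : 𝓞 K} (h1 : ¬ D ∣ 3) (h2 : ¬ D ∣ 2) (h3 : ∀ x : 𝓞 K, x ^ 3 ∣ D → IsUnit x)
    (hfin : {x : K | x ≠ 0 ∧ ∃ y, y ^ 2 + (D : K) * y = x ^ 3}.Finite) :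
    ∀ x y : K, y ^ 2 + (D : K) * y = x ^ 3 → x = 0 := by
  obtain ⟨v, hv⟩ := exists_two K
  have hD0 : D ≠ 0 := by
    rintro rfl
    exact not_isUnit_zero (h3 0 (by rw [zero_pow three_ne_zero]))
  have hD : (D : K) ≠ 0 := fun h => hD0 (RingOfIntegers.coe_injective (h.trans (map_zero _).symm))
  have hint : ∀ s : K, (∃ m : 𝓞 K, s ^ 3 = m) → ∃ r : 𝓞 K, (r : K) = s := by
    rintro s ⟨m, hm⟩
    have h5 : IsIntegral ℤ (s ^ 3) := by rw [hm]; exact m.isIntegral_coe
    exact ⟨⟨s, IsIntegral.of_pow three_pos h5⟩, rfl⟩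
  apply no_otherD hv hD _ _ hfin
  · intro r hr
    obtain ⟨r', rfl⟩ := hint r ⟨D, hr⟩
    have h5 : r' ^ 3 = D := RingOfIntegers.coe_injective (by rw [map_pow]; exact hr)
    have h6 := h3 r' (by rw [h5])
    apply h1
    rw [← h5]
    exact (h6.pow 3).dvd
  · intro r hr
    have h4 : (2 * r) ^ 3 = ((4 * D : 𝓞 K) : K) := by
      change (2 * r) ^ 3 = algebraMap (𝓞 K) K (4 * D)
      rw [map_mul, map_ofNat]
      linear_combination 4 * hr
    obtain ⟨s, hs⟩ := hint (2 * r) ⟨_, h4⟩
    have h5 : s ^ 3 = 4 * D := RingOfIntegers.coe_injective (by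
      rw [map_pow]
      rw [← hs] at h4
      exact h4)
    obtain ⟨⟨j, -⟩, -⟩ := Pool.Agent.Y455.CTK.jex K
    have hp : Prime (2 : 𝓞 K) := by
      have := (MulEquiv.prime_iff (j : Pool.Agent.Y692.QS.Ei ≃* 𝓞 K) (p := 2)).2 prime_two
      rwa [show ((j : Pool.Agent.Y692.QS.Ei ≃* 𝓞 K) 2) = 2 from map_ofNat j 2] at this
    have h6 : (2 : 𝓞 K) ∣ s := by
      apply hp.dvd_of_dvd_pow (n := 3)
      rw [h5]
      exact ⟨2 * D, by ring⟩
    obtain ⟨t, rfl⟩ := h6
    have h7 : 2 * t ^ 3 = D := by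
      have h8 : (4 : 𝓞 K) * (2 * t ^ 3) = 4 * D := by linear_combination h5
      exact mul_left_cancel₀ (by norm_num) h8
    have h9 := h3 t ⟨2, by rw [← h7]; ring⟩
    apply h2
    rw [← h7]
    obtain ⟨u, hu⟩ := h9.pow 3
    exact ⟨↑u⁻¹, by rw [← hu, mul_assoc, Units.mul_inv, mul_one]⟩

end

end Pool.Agent.D0H69.UC
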