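import Pool.Agent.R432.C6

/-!
# The points of `y² + D y = x³` over `K(∛d_1, …, ∛d_n)`

Adapted from the theorem `pts` of helper432 (`R432/C6.lean`).
-/

set_option autoImplicit false
set_option linter.unusedVariables false
set_option linter.unusedSectionVars false

open WeierstrassCurve

namespace Pool.Agent.D0H69.UC

open Pool.Agent.TH841.NF (Sc tF tF_some tF_add)
open Pool.Agent.R432.C
open scoped Classical

section ker

variable {F : Type} [Field F] [CharZero F]

/-- `P` is zero or has the abscissa `0` -/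
def X0 {a : F} (P : (ED a).toAffine.Point) : Prop :=
  ∀ (x y : F) (h : (ED a).toAffine.Nonsingular x y), P = .some x y h → x = 0

/-- a point of order three with `x ≠ 0` gives a cube root of `D` -/
theorem x0_three {a : F} (ha : a ≠ 0) (hnc : ∀ v : F, v ^ 3 ≠ a) {Q : (ED a).toAffine.Point}
    (hQ : (3 : ℕ) • Q = 0) : X0 Q := by
  rintro x y h rfl
  by_contra hx
  have heq := (Affine.equation_iff _ _).1 h.1
  change y ^ 2 + 0 * x * y + a * y = x ^ 3 + 0 * x ^ 2 + 0 * x + 0 at heq
  have heq' : y ^ 2 + a * y = x ^ 3 := by linear_combination heq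
  have hneg : (ED a).toAffine.negY x y = -y - a := by
    change -y - 0 * x - a = -y - a
    ring
  have hy : y ≠ (ED a).toAffine.negY x y := by
    intro hy
    have h1 : Affine.Point.some x y h + Affine.Point.some x y h = 0 :=
      Affine.Point.add_self_of_Y_eq hy
    have h2 : (3 : ℕ) • (Affine.Point.some x y h : (ED a).toAffine.Point) =
        (Affine.Point.some x y h + Affine.Point.some x y h) + Affine.Point.some x y h := by
      rw [succ_nsmul, two_nsmul]
    rw [h2, h1, zero_add] at hQ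
    exact absurd hQ (by rintro ⟨⟩)
  have h2 : (3 : ℕ) • (Affine.Point.some x y h : (ED a).toAffine.Point) =
      (Affine.Point.some x y h + Affine.Point.some x y h) + Affine.Point.some x y h := by
    rw [succ_nsmul, two_nsmul]
  rw [h2, add_eq_zero_iff_eq_neg, Affine.Point.add_self_of_Y_ne hy, Affine.Point.neg_some,
    Affine.Point.some.injEq] at hQ
  have h3 := hQ.1
  have hsl : (ED a).toAffine.slope x x y y = (3 * x ^ 2) / (2 * y + a) := by
    rw [Affine.slope_of_Y_ne rfl hy, hneg]
    change (3 * x ^ 2 + 2 * 0 * x + 0 - 0 * y) / (y - (-y - a)) = _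
    congr 1 <;> ring
  have hya : 2 * y + a ≠ 0 := by
    intro h0
    apply hy
    rw [hneg]
    linear_combination h0
  rw [hsl] at h3
  change ((3 * x ^ 2) / (2 * y + a)) ^ 2 + 0 * ((3 * x ^ 2) / (2 * y + a)) - 0 - x - x = x at h3
  have h4 : (3 * x ^ 2) ^ 2 = 3 * x * (2 * y + a) ^ 2 := by
    have h5 : ((3 * x ^ 2) / (2 * y + a)) ^ 2 = 3 * x := by linear_combination h3
    rw [div_pow, div_eq_iff (pow_ne_zero 2 hya)] at h5
    exact h5
  have h6 : x * (x ^ 3 + a ^ 2) = 0 := by
    have h7 : (3 : F) * (x * (x ^ 3 + a ^ 2)) = 0 := by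
      linear_combination (-1 : F) * h4 - 12 * x * heq'
    exact (mul_eq_zero.1 h7).resolve_left three_ne_zero
  have h8 : x ^ 3 + a ^ 2 = 0 := (mul_eq_zero.1 h6).resolve_left hx
  apply hnc (a / (-x))
  have h9 : x ^ 3 = -a ^ 2 := by linear_combination h8
  rw [div_pow, div_eq_iff (pow_ne_zero 3 (neg_ne_zero.2 hx))]
  linear_combination a * h9

/-- a sum of points with the abscissa `0` and a torsion point: all have the abscissa zero -/
theorem x0_of_sum {a z : F} (ha : a ≠ 0) (hz : z ^ 2 + z + 1 = 0) (hnc : ∀ v : F, v ^ 3 ≠ a)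
    {T : Type} [Fintype T] (q : T → (ED a).toAffine.Point) (hq : ∀ t, X0 (q t)) {n : ℕ}
    {P : (ED a).toAffine.Point} (hP : ∑ t, q t = 3 ^ n • P) : X0 P := by
  have hz3 := cube_of hz
  have hz0 : z ≠ 0 := by
    rintro rfl
    norm_num at hz
  have hz1 : z ≠ 1 := w_ne_one hz three_ne_zero
  have S : Sc (RingHom.id F) z (ED a) (ED a) := sED _ hz0 (by
    rw [RingHom.id_apply, hz3, mul_one])
  set A : (ED a).toAffine.Point →+ (ED a).toAffine.Point := tH S with hA
  have hAs : ∀ x y (h : (ED a).toAffine.Nonsingular x y), ∃ h',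
      A (.some x y h) = .some (z ^ 2 * x) y h' := by
    intro x y h
    obtain ⟨h1, e1⟩ := tH_some S x y h
    have e2 : (RingHom.id F) x * z ^ 2 = z ^ 2 * x := by rw [RingHom.id_apply, mul_comm]
    have e3 : (RingHom.id F) y * z ^ 3 = y := by rw [RingHom.id_apply, hz3, mul_one]
    rw [hA]
    refine ⟨by rw [← e2, ← e3]; exact h1, ?_⟩
    rw [e1, Affine.Point.some.injEq]
    exact ⟨e2, e3⟩
  have hA3 : ∀ P, P + A (A P) + A P = 0 := by
    rintro (_ | ⟨x, y, h⟩)
    · change (0 : (ED a).toAffine.Point) + A (A 0) + A 0 = 0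
      rw [map_zero, map_zero, add_zero, add_zero]
    · obtain ⟨h1, e1⟩ := hAs x y h
      obtain ⟨h2, e2⟩ := hAs _ _ h1
      rw [e1, e2]
      refine add3 (V := ED a) rfl rfl rfl rfl rfl ha hz _ _ _ ?_ ?_
      · linear_combination (z * x) * hz3
      · ring
  have hAA : ∀ P, A (A P) = -P - A P := by
    intro P
    have h1 := hA3 P
    have h2 : A (A P) = P + A (A P) + A P - P - A P := by abel
    rw [h2, h1]
    abel
  set B : (ED a).toAffine.Point →+ (ED a).toAffine.Point := AddMonoidHom.id _ - A with hB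
  have hBk : ∀ P, B P = 0 → X0 P := by
    intro P hP x y h hPe
    subst hPe
    have h2 : (Affine.Point.some x y h : (ED a).toAffine.Point) - A (.some x y h) = 0 := hP
    obtain ⟨h3, e3⟩ := hAs x y h
    rw [e3, sub_eq_zero, Affine.Point.some.injEq] at h2
    have h4 : (z ^ 2 - 1) * x = 0 := by linear_combination -h2.1
    refine (mul_eq_zero.1 h4).resolve_left ?_
    intro h5
    apply hz1
    linear_combination hz3 - z * h5
  have hBk' : ∀ P, X0 P → B P = 0 := by
    rintro (_ | ⟨x, y, h⟩) hP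
    · exact map_zero B
    · have hx : x = 0 := hP x y h rfl
      subst hx
      show (Affine.Point.some 0 y h : (ED a).toAffine.Point) - A (.some 0 y h) = 0
      obtain ⟨h3, e3⟩ := hAs 0 y h
      rw [e3, sub_eq_zero, Affine.Point.some.injEq]
      exact ⟨by ring, rfl⟩
  have hBB : ∀ P, B (B P) = -((3 : ℕ) • A P) := by
    intro P
    show (P - A P) - A (P - A P) = _
    rw [map_sub, hAA]
    abel
  have hXA : ∀ P, X0 (A P) → X0 P := by
    intro P hP x y h hPe
    subst hPe
    obtain ⟨h3, e3⟩ := hAs x y h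
    have h4 := hP _ _ h3 e3
    exact (mul_eq_zero.1 h4).resolve_left (pow_ne_zero 2 hz0)
  -- `B B P = 0` implies that `P` is in the kernel of `B`
  have h2k : ∀ P, B (B P) = 0 → X0 P := by
    intro P hP
    rw [hBB, neg_eq_zero] at hP
    exact hXA P (x0_three ha hnc hP)
  have hpow : ∀ (k : ℕ) (P : (ED a).toAffine.Point), 3 ^ k • P = 0 → X0 P := by
    intro k
    induction k with
    | zero =>
      intro P hP
      rw [pow_zero, one_smul] at hP
      rw [hP]
      intro x y h he
      exact absurd he (by rintro ⟨⟩)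
    | succ k ih =>
      intro P hP
      have h1 : 3 ^ k • ((3 : ℕ) • P) = 0 := by
        rw [← mul_smul, ← pow_succ]
        exact hP
      have h3 := hBk' _ (ih _ h1)
      rw [map_nsmul] at h3
      have h4 := hBk' _ (x0_three ha hnc h3)
      exact h2k P h4
  have h1 : 3 ^ n • B P = 0 := by
    rw [← map_nsmul, ← hP, map_sum]
    exact Finset.sum_eq_zero fun t _ => hBk' _ (hq t)
  exact h2k P (hBk' _ (hpow n _ h1))

end ker

/-- `D` is not a cube in `F` -/
theorem no_cube {K F : Type} [Field K] [CharZero K] [Field F] [CharZero F] [Algebra K F]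
    [FiniteDimensional K F] [IsGalois K F] {ω : K} (hω : ω ^ 2 + ω + 1 = 0) {I : Type} [Fintype I]
    (d : I → K) (x : I → F) (hd : ∀ i, d i ≠ 0) (hx : ∀ i, x i ^ 3 = algebraMap K F (d i))
    (hgen : ∀ S : Subfield F, (∀ k : K, algebraMap K F k ∈ S) → (∀ i, x i ∈ S) → S = ⊤)
    {D : K} (hD : D ≠ 0) (hyp : ∀ (t : I → ZMod 3) (c : K), c ^ 3 ≠ D * ∏ i, d i ^ (t i).val) :
    ∀ v : F, v ^ 3 ≠ algebraMap K F D := by
  intro v hv
  have hx0 : ∀ i, x i ≠ 0 := by
    intro i h0
    have h1 := hx i
    rw [h0, zero_pow (by norm_num)] at h1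
    exact hd i ((map_eq_zero _).1 h1.symm)
  obtain ⟨u, hu⟩ : ∃ u : (I → ZMod 3) → F, ∀ t, u t = ∏ i, x i ^ (t i).val := ⟨_, fun T => rfl⟩
  have hune : ∀ t, u t ≠ 0 := fun t => by
    rw [hu]
    exact Finset.prod_ne_zero_iff.2 fun i _ => pow_ne_zero _ (hx0 i)
  have hu3 : ∀ t, u t ^ 3 = algebraMap K F (∏ i, d i ^ (t i).val) := by
    intro t
    rw [hu, ← Finset.prod_pow, map_prod]
    refine Finset.prod_congr rfl fun i _ => ?_
    rw [map_pow, ← hx i, ← pow_mul, ← pow_mul, mul_comm]
  have hv0 : v ≠ 0 := by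
    rintro rfl
    rw [zero_pow three_ne_zero] at hv
    exact hD ((map_eq_zero _).1 hv.symm)
  set z : F := algebraMap K F ω with hzdef
  have hz : z ^ 2 + z + 1 = 0 := by
    rw [hzdef, ← map_pow, ← map_add, ← map_one (algebraMap K F), ← map_add, hω, map_zero]
  have hz3 := cube_of hz
  -- the traces vanish
  have hR : ∀ t, ∑ g : F ≃ₐ[K] F, g (v * u t) = 0 := by
    intro t
    by_contra hne
    have hfix : ∀ h : F ≃ₐ[K] F, h (∑ g : F ≃ₐ[K] F, g (v * u t)) = ∑ g : F ≃ₐ[K] F, g (v * u t) := by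
      intro h
      rw [map_sum, ← Equiv.sum_comp (Equiv.mulLeft h) (fun g : F ≃ₐ[K] F => g (v * u t))]
      rfl
    obtain ⟨R0, hR0⟩ := (IsGalois.mem_range_algebraMap_iff_fixed (F := K) _).2 hfix
    have h3 : (v * u t) ^ 3 = algebraMap K F (D * ∏ i, d i ^ (t i).val) := by
      rw [mul_pow, hv, hu3, map_mul]
    have hex : ∀ g : F ≃ₐ[K] F, ∃ c : ZMod 3, g (v * u t) = z ^ c.val * (v * u t) := by
      intro g
      apply cube_roots hz
      rw [← map_pow, h3, AlgEquiv.commutes]
    choose s hs using hex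
    have h4 : algebraMap K F R0 = algebraMap K F (∑ g, ω ^ (s g).val) * (v * u t) := by
      rw [hR0, map_sum, Finset.sum_mul]
      refine Finset.sum_congr rfl fun g _ => ?_
      rw [hs g, map_pow]
    have h5 : (∑ g, ω ^ (s g).val : K) ≠ 0 := by
      intro h0
      rw [h0, map_zero, zero_mul] at h4
      exact hne (hR0.symm.trans h4)
    apply hyp t (R0 / ∑ g, ω ^ (s g).val)
    apply (algebraMap K F).injective
    rw [← h3, map_pow, map_div₀, h4, mul_div_cancel_left₀ _ ((map_ne_zero _).2 h5)]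
  -- the sum
  have hsum : ∑ t, (u t)⁻¹ * ∑ g : F ≃ₐ[K] F, g (v * u t) = 3 ^ Fintype.card I * v := by
    simp_rw [Finset.mul_sum]
    rw [Finset.sum_comm, Finset.sum_eq_single 1]
    · have h2 : ∀ t, (u t)⁻¹ * (1 : F ≃ₐ[K] F) (v * u t) = v := by
        intro t
        rw [AlgEquiv.one_apply, mul_comm v, ← mul_assoc, inv_mul_cancel₀ (hune t), one_mul]
      rw [Finset.sum_congr rfl fun t _ => h2 t, Finset.sum_const, Finset.card_univ,
        Fintype.card_fun, ZMod.card, nsmul_eq_mul]
      push_cast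
      rfl
    · intro g _ hg
      have hex : ∀ i, ∃ c : ZMod 3, g (x i) = z ^ c.val * x i := by
        intro i
        apply cube_roots hz
        rw [← map_pow, hx i, AlgEquiv.commutes]
      choose s hs using hex
      obtain ⟨i0, hi0⟩ : ∃ i, s i ≠ 0 := by
        by_contra hcon
        push Not at hcon
        apply hg
        have h5 := hgen (RingHom.eqLocusField (g : F →+* F) (RingHom.id F))
          (fun y => g.commutes y) (fun i => by
            show g (x i) = x i
            rw [hs i, hcon i, ZMod.val_zero, pow_zero, one_mul])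
        ext y
        have h7 : y ∈ RingHom.eqLocusField (g : F →+* F) (RingHom.id F) := by rw [h5]; trivial
        exact h7
      have hgu : ∀ t, g (u t) = z ^ (∑ i, s i * t i).val * u t := by
        intro t
        rw [hu, map_prod, pow_sum_val hz3, ← Finset.prod_mul_distrib]
        refine Finset.prod_congr rfl fun i _ => ?_
        rw [map_pow, hs i, mul_pow, pow_mul_val hz3]
      have h6 : ∀ t, (u t)⁻¹ * g (v * u t) = z ^ (∑ i, s i * t i).val * g v := by
        intro t
        rw [map_mul, hgu]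
        field_simp [hune t]
      rw [Finset.sum_congr rfl fun t _ => h6 t]
      refine fib_sum s hi0 (fun c => z ^ c.val * g v) ?_
      have h0 : ∀ f : ZMod 3 → F, ∑ b, f b = f 0 + f 2 + f 1 := by
        intro f
        have : (Finset.univ : Finset (ZMod 3)) = {0, 2, 1} := by decide
        rw [this, Finset.sum_insert (by decide), Finset.sum_insert (by decide),
          Finset.sum_singleton, add_assoc]
      rw [h0]
      have v0 : (0 : ZMod 3).val = 0 := rfl
      have v1 : (1 : ZMod 3).val = 1 := rfl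
      have v2 : (2 : ZMod 3).val = 2 := rfl
      rw [v0, v1, v2]
      linear_combination g v * hz
    · intro h
      exact absurd (Finset.mem_univ _) h
  rw [Finset.sum_eq_zero (fun t _ => by rw [hR t, mul_zero])] at hsum
  exact mul_ne_zero (pow_ne_zero _ three_ne_zero) hv0 hsum.symm

/-- **The points over `F = K(∛d_1, …, ∛d_n)`**: only those with `x = 0`, if this is true for all the
twists over `K`. -/
theorem ptsF {K F : Type} [Field K] [CharZero K] [Field F] [CharZero F] [Algebra K F]
    [FiniteDimensional K F] [IsGalois K F] {ω : K} (hω : ω ^ 2 + ω + 1 = 0) {I : Type} [Fintype I]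
    (d : I → K) (x : I → F) (hd : ∀ i, d i ≠ 0) (hx : ∀ i, x i ^ 3 = algebraMap K F (d i))
    (hgen : ∀ S : Subfield F, (∀ k : K, algebraMap K F k ∈ S) → (∀ i, x i ∈ S) → S = ⊤)
    {D : K} (hD : D ≠ 0)
    (hyp : ∀ (t : I → ZMod 3) (X Y : K), Y ^ 2 + (D * ∏ i, d i ^ (t i).val) * Y = X ^ 3 → X = 0) :
    ∀ X Y : F, Y ^ 2 + algebraMap K F D * Y = X ^ 3 → X = 0 := by
  have hDF : algebraMap K F D ≠ 0 := (map_ne_zero _).2 hD
  have hdp : ∀ t : I → ZMod 3, (∏ i, d i ^ (t i).val) ≠ 0 := fun t =>
    Finset.prod_ne_zero_iff.2 fun i _ => pow_ne_zero _ (hd i)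
  have hnc : ∀ v : F, v ^ 3 ≠ algebraMap K F D := by
    refine no_cube hω d x hd hx hgen hD fun t c hc => ?_
    have h1 : -c ^ 2 = 0 := hyp t (-c ^ 2) (ω * c ^ 3) (by
      rw [← hc]
      linear_combination c ^ 6 * hω)
    have h2 : c = 0 := (pow_eq_zero_iff two_ne_zero).1 (neg_eq_zero.1 h1)
    rw [h2, zero_pow three_ne_zero] at hc
    exact mul_ne_zero hD (hdp t) hc.symm
  have hx0 : ∀ i, x i ≠ 0 := by
    intro i h0
    have h1 := hx i
    rw [h0, zero_pow (by norm_num)] at h1
    exact hd i ((map_eq_zero _).1 h1.symm)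
  obtain ⟨u, hu⟩ : ∃ u : (I → ZMod 3) → F, ∀ t, u t = ∏ i, x i ^ (t i).val := ⟨_, fun T => rfl⟩
  have hune : ∀ t, u t ≠ 0 := fun t => by
    rw [hu]
    exact Finset.prod_ne_zero_iff.2 fun i _ => pow_ne_zero _ (hx0 i)
  have hu3 : ∀ t, u t ^ 3 = algebraMap K F (∏ i, d i ^ (t i).val) := by
    intro t
    rw [hu, ← Finset.prod_pow, map_prod]
    refine Finset.prod_congr rfl fun i _ => ?_
    rw [map_pow, ← hx i, ← pow_mul, ← pow_mul, mul_comm]
  set z : F := algebraMap K F ω with hzdef
  have hz : z ^ 2 + z + 1 = 0 := by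
    rw [hzdef, ← map_pow, ← map_add, ← map_one (algebraMap K F), ← map_add, hω, map_zero]
  have hz3 := cube_of hz
  -- the maps
  have S1 : ∀ t, Sc (RingHom.id F) (u t) (ED (algebraMap K F D))
      (ED (algebraMap K F (D * ∏ i, d i ^ (t i).val))) := fun t =>
    sED _ (hune t) (by rw [RingHom.id_apply, map_mul, hu3])
  have S2 : ∀ t, Sc (RingHom.id F) (u t)⁻¹ (ED (algebraMap K F (D * ∏ i, d i ^ (t i).val)))
      (ED (algebraMap K F D)) := fun t =>
    sED _ (inv_ne_zero (hune t)) (by
      rw [RingHom.id_apply, map_mul, ← hu3, mul_assoc, ← mul_pow, mul_inv_cancel₀ (hune t), one_pow,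
        mul_one])
  have Sg : ∀ (b : K) (g : F ≃ₐ[K] F), Sc (g : F →+* F) 1 (ED (algebraMap K F b))
      (ED (algebraMap K F b)) := fun b g =>
    sED _ one_ne_zero (by
      rw [one_pow, mul_one]
      exact (g.commutes b).symm)
  have Sa : ∀ b : K, Sc (algebraMap K F) 1 (ED b) (ED (algebraMap K F b)) := fun b =>
    sED _ one_ne_zero (by rw [one_pow, mul_one])
  let R : ∀ t : I → ZMod 3, (ED (algebraMap K F D)).toAffine.Point →
      (ED (algebraMap K F (D * ∏ i, d i ^ (t i).val))).toAffine.Point :=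
    fun t P => ∑ g : F ≃ₐ[K] F, tH (Sg _ g) (tH (S1 t) P)
  have hRinv : ∀ t P (h : F ≃ₐ[K] F), tH (Sg _ h) (R t P) = R t P := by
    intro t P h
    show tH (Sg _ h) (∑ g : F ≃ₐ[K] F, tH (Sg _ g) (tH (S1 t) P)) =
      ∑ g : F ≃ₐ[K] F, tH (Sg _ g) (tH (S1 t) P)
    rw [map_sum, ← Equiv.sum_comp (Equiv.mulLeft h)
      (fun g => tH (Sg (D * ∏ i, d i ^ (t i).val) g) (tH (S1 t) P))]
    refine Finset.sum_congr rfl fun g _ => ?_
    exact tH_tH (Sg _ g) (Sg _ h) (Sg _ (h * g)) (fun y => rfl)
      (by rw [map_one, mul_one]) _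
  -- descent
  have hdesc : ∀ (b : K) (hb : ∀ X Y : K, Y ^ 2 + b * Y = X ^ 3 → X = 0)
      (Q : (ED (algebraMap K F b)).toAffine.Point),
      (∀ g : F ≃ₐ[K] F, tH (Sg b g) Q = Q) → X0 Q := by
    intro b hb Q hQ X Y h hQe
    subst hQe
    have h1 : ∀ g : F ≃ₐ[K] F, g X = X ∧ g Y = Y := by
      intro g
      have h2 := hQ g
      obtain ⟨h3, e3⟩ := tH_some (Sg b g) X Y h
      rw [e3, Affine.Point.some.injEq, one_pow, one_pow, mul_one, mul_one] at h2
      exact h2
    have heq := (Affine.equation_iff _ _).1 h.1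
    change Y ^ 2 + 0 * X * Y + algebraMap K F b * Y = X ^ 3 + 0 * X ^ 2 + 0 * X + 0 at heq
    obtain ⟨X0, rfl⟩ := (IsGalois.mem_range_algebraMap_iff_fixed (F := K) X).2 fun g => (h1 g).1
    obtain ⟨Y0, rfl⟩ := (IsGalois.mem_range_algebraMap_iff_fixed (F := K) Y).2 fun g => (h1 g).2
    have h4 : X0 = 0 := hb X0 Y0 (by
      apply (algebraMap K F).injective
      simp only [map_add, map_mul, map_pow]
      linear_combination heq)
    rw [h4, map_zero]
  have hq : ∀ P t, X0 (tH (S2 t) (R t P)) := by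
    intro P t X Y h he
    have h1 := hdesc _ (hyp t) _ (hRinv t P)
    rcases hc : R t P with _ | ⟨X1, Y1, h1'⟩
    · rw [hc] at he
      have h2 : tH (S2 t) (0 : (ED (algebraMap K F (D * ∏ i, d i ^ (t i).val))).toAffine.Point) =
        .some X Y h := he
      rw [map_zero] at h2
      exact absurd h2 (by rintro ⟨⟩)
    · have h3 := h1 X1 Y1 h1' hc
      rw [hc] at he
      obtain ⟨h4, e4⟩ := tH_some (S2 t) X1 Y1 h1'
      rw [e4, Affine.Point.some.injEq] at he
      rw [← he.1, h3, RingHom.id_apply, zero_mul]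
  -- the sum
  have hsum : ∀ P, ∑ t, tH (S2 t) (R t P) = 3 ^ Fintype.card I • P := by
    intro P
    have h1 : ∀ t, tH (S2 t) (R t P) =
        ∑ g : F ≃ₐ[K] F, tH (S2 t) (tH (Sg _ g) (tH (S1 t) P)) := fun t => map_sum _ _ _
    rw [Finset.sum_congr rfl fun t _ => h1 t, Finset.sum_comm, Finset.sum_eq_single 1]
    · have h2 : ∀ t, tH (S2 t) (tH (Sg _ (1 : F ≃ₐ[K] F)) (tH (S1 t) P)) = P := by
        intro t
        have S3 : Sc (RingHom.id F) (u t) (ED (algebraMap K F D))
          (ED (algebraMap K F (D * ∏ i, d i ^ (t i).val))) := S1 t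
        rw [tH_tH (S1 t) (Sg _ 1) S3 (fun y => rfl) (by
          rw [mul_one]
          rfl)]
        have S4 : Sc (RingHom.id F) 1 (ED (algebraMap K F D)) (ED (algebraMap K F D)) :=
          sED _ one_ne_zero (by rw [RingHom.id_apply, one_pow, mul_one])
        rw [tH_tH S3 (S2 t) S4 (fun y => rfl) (by
          rw [RingHom.id_apply, mul_inv_cancel₀ (hune t)])]
        rcases P with _ | ⟨X, Y, h⟩
        · rfl
        · obtain ⟨h3, e3⟩ := tH_some S4 X Y h
          rw [e3, Affine.Point.some.injEq]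
          simp
      rw [Finset.sum_congr rfl fun t _ => h2 t, Finset.sum_const, Finset.card_univ,
        Fintype.card_fun, ZMod.card]
    · intro g _ hg
      have hex : ∀ i, ∃ c : ZMod 3, g (x i) = z ^ c.val * x i := by
        intro i
        apply cube_roots hz
        rw [← map_pow, hx i, AlgEquiv.commutes]
      choose s hs using hex
      obtain ⟨i0, hi0⟩ : ∃ i, s i ≠ 0 := by
        by_contra hcon
        push Not at hcon
        apply hg
        have h5 := hgen (RingHom.eqLocusField (g : F →+* F) (RingHom.id F))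
          (fun y => g.commutes y) (fun i => by
            show g (x i) = x i
            rw [hs i, hcon i, ZMod.val_zero, pow_zero, one_mul])
        ext y
        have h7 : y ∈ RingHom.eqLocusField (g : F →+* F) (RingHom.id F) := by rw [h5]; trivial
        exact h7
      have hgz : g z = z := g.commutes ω
      have hz0 : z ≠ 0 := by
        intro h
        rw [h] at hz
        norm_num at hz
      have hgu : ∀ t, g (u t) = z ^ (∑ i, s i * t i).val * u t := by
        intro t
        rw [hu, map_prod, pow_sum_val hz3, ← Finset.prod_mul_distrib]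
        refine Finset.prod_congr rfl fun i _ => ?_
        rw [map_pow, hs i, mul_pow, pow_mul_val hz3]
      have SS : ∀ c : ZMod 3, Sc (g : F →+* F) (z ^ c.val) (ED (algebraMap K F D))
          (ED (algebraMap K F D)) := fun c =>
        sED _ (pow_ne_zero _ hz0) (by
          have h1 : (z ^ c.val) ^ 3 = 1 := by rw [← pow_mul, mul_comm, pow_mul, hz3, one_pow]
          rw [h1, mul_one]
          exact (g.commutes D).symm)
      rw [Finset.sum_congr rfl (g := fun t => tH (SS (∑ i, s i * t i)) P) (fun t _ => ?_)]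
      · exact twist_sum hDF hz _ s hi0 SS P
      · have S3 : Sc (g : F →+* F) (z ^ (∑ i, s i * t i).val * u t) (ED (algebraMap K F D))
            (ED (algebraMap K F (D * ∏ i, d i ^ (t i).val))) :=
          sED _ (mul_ne_zero (pow_ne_zero _ hz0) (hune t)) (by
            have h1 : (z ^ (∑ i, s i * t i).val) ^ 3 = 1 := by
              rw [← pow_mul, mul_comm, pow_mul, hz3, one_pow]
            have h2 : (g : F →+* F) (algebraMap K F D) = algebraMap K F D := g.commutes D
            rw [mul_pow, h1, one_mul, hu3, h2, map_mul])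
        rw [tH_tH (S1 t) (Sg _ g) S3 (fun y => rfl) (by
          rw [mul_one]
          exact (hgu t).symm)]
        exact tH_tH S3 (S2 t) (SS _) (fun y => rfl) (by
          rw [RingHom.id_apply, mul_assoc, mul_inv_cancel₀ (hune t), mul_one]) P
    · intro h
      exact absurd (Finset.mem_univ _) h
  intro X Y hXY
  by_contra hX
  have hns : (ED (algebraMap K F D)).toAffine.Nonsingular X Y := by
    rw [Affine.nonsingular_iff]
    refine ⟨?_, ?_⟩
    · rw [Affine.equation_iff]
      change Y ^ 2 + 0 * X * Y + algebraMap K F D * Y = X ^ 3 + 0 * X ^ 2 + 0 * X + 0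
      linear_combination hXY
    · left
      change 0 * Y ≠ 3 * X ^ 2 + 2 * 0 * X + 0
      intro h0
      have h3 : (3 : F) * X ^ 2 = 0 := by linear_combination -h0
      exact hX ((pow_eq_zero_iff two_ne_zero).1 ((mul_eq_zero.1 h3).resolve_left three_ne_zero))
  have h1 := x0_of_sum hDF hz hnc (fun t => tH (S2 t) (R t (.some X Y hns)))
    (fun t => hq _ t) (hsum (.some X Y hns))
  exact hX (h1 X Y hns rfl)

end Pool.Agent.D0H69.UC
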